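import Mathlib

set_option autoImplicit false

namespace Q127.EqStar

open Finset

/-- weights of the five stars -/
def wt : Fin 5 → ℕ := ![2, 2, 2, 3, 3]

/-- the data of the core problem -/
structure Data where
  t : ℕ
  p : Fin 5 → ℕ
  q : Fin 5 → ℕ
  hpq : ∀ i, p i ≠ q i
  ν : Fin 5 → Sym2 ℕ → ℕ
  hν : ∀ i (S : Finset (Sym2 ℕ)), ∑ e ∈ S, ν i e ≤ wt i * t

namespace Data

variable (D : Data)

def zz (i : Fin 5) (b : Bool) : ℕ := if b then D.q i else D.p i

def g (i : Fin 5) (b : Bool) (c : ℕ) : ℕ :=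
  if c = D.zz i b then 0 else D.ν i s(D.zz i b, c)

def a (i : Fin 5) : ℕ := D.ν i s(D.p i, D.q i)

def y (i : Fin 5) : ℕ := wt i * D.t

def load (s : Fin 5 → Bool) (c : ℕ) : ℕ := ∑ i, D.g i (s i) c

theorem sum_y : ∑ i, D.y i = 12 * D.t := by
  simp only [y, Fin.sum_univ_five, wt]
  simp
  ring

theorem zz_ne (i : Fin 5) (b : Bool) : D.zz i b ≠ D.zz i (!b) := by
  have := D.hpq i
  cases b <;> simp [zz, this, this.symm]

theorem g_self (i : Fin 5) (b : Bool) : D.g i b (D.zz i b) = 0 := by simp [g]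

theorem g_other (i : Fin 5) (b : Bool) : D.g i b (D.zz i (!b)) = D.a i := by
  have h := D.zz_ne i b
  unfold g
  rw [if_neg (Ne.symm h)]
  cases b
  · simp [zz, a]
  · simp [zz, a, Sym2.eq_swap]

/-- master inequality -/
theorem master (i : Fin 5) (C : Finset ℕ) :
    ∑ c ∈ C, (D.g i false c + D.g i true c) ≤
      D.y i + (if D.p i ∈ C ∧ D.q i ∈ C then D.a i else 0) := by
  classical
  have hpq := D.hpq i
  set S1 : Finset (Sym2 ℕ) := (C.erase (D.p i)).image (fun c => s(D.p i, c)) with hS1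
  set S2 : Finset (Sym2 ℕ) := (C.erase (D.q i)).image (fun c => s(D.q i, c)) with hS2
  have h1 : ∑ c ∈ C, D.g i false c = ∑ e ∈ S1, D.ν i e := by
    rw [hS1, Finset.sum_image]
    · by_cases hp : D.p i ∈ C
      · rw [← Finset.add_sum_erase C _ hp]
        have : D.g i false (D.p i) = 0 := by simp [g, zz]
        rw [this, zero_add]
        apply Finset.sum_congr rfl
        intro c hc
        have : c ≠ D.p i := (Finset.mem_erase.mp hc).1
        simp [g, zz, this]
      · rw [Finset.erase_eq_of_notMem hp]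
        apply Finset.sum_congr rfl
        intro c hc
        have : c ≠ D.p i := fun h => hp (h ▸ hc)
        simp [g, zz, this]
    · intro c _ c' _ h
      rcases Sym2.eq_iff.mp h with ⟨_, h⟩ | ⟨h1, h2⟩
      · exact h
      · rw [h2, h1]
  have h2 : ∑ c ∈ C, D.g i true c = ∑ e ∈ S2, D.ν i e := by
    rw [hS2, Finset.sum_image]
    · by_cases hp : D.q i ∈ C
      · rw [← Finset.add_sum_erase C _ hp]
        have : D.g i true (D.q i) = 0 := by simp [g, zz]
        rw [this, zero_add]
        apply Finset.sum_congr rfl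
        intro c hc
        have : c ≠ D.q i := (Finset.mem_erase.mp hc).1
        simp [g, zz, this]
      · rw [Finset.erase_eq_of_notMem hp]
        apply Finset.sum_congr rfl
        intro c hc
        have : c ≠ D.q i := fun h => hp (h ▸ hc)
        simp [g, zz, this]
    · intro c _ c' _ h
      rcases Sym2.eq_iff.mp h with ⟨_, h⟩ | ⟨h1, h2⟩
      · exact h
      · rw [h2, h1]
  rw [Finset.sum_add_distrib, h1, h2, ← Finset.sum_union_inter]
  apply Nat.add_le_add
  · exact D.hν i _
  · have hsub : S1 ∩ S2 ⊆ (if D.p i ∈ C ∧ D.q i ∈ C then {s(D.p i, D.q i)} else ∅) := by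
      intro e he
      rw [Finset.mem_inter, hS1, hS2, Finset.mem_image, Finset.mem_image] at he
      obtain ⟨⟨c, hc, rfl⟩, ⟨c', hc', hcc⟩⟩ := he
      rw [Finset.mem_erase] at hc hc'
      rw [Sym2.eq_iff] at hcc
      rcases hcc with ⟨h, _⟩ | ⟨h, h'⟩
      · exact absurd h.symm hpq
      · subst h
        subst h'
        rw [if_pos ⟨hc'.2, hc.2⟩]
        simp
    calc ∑ e ∈ S1 ∩ S2, D.ν i e ≤ ∑ e ∈ (if D.p i ∈ C ∧ D.q i ∈ C then
            ({s(D.p i, D.q i)} : Finset (Sym2 ℕ)) else ∅), D.ν i e :=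
          Finset.sum_le_sum_of_subset hsub
      _ ≤ _ := by
          split_ifs
          · simp [a]
          · simp

theorem a_le (i : Fin 5) : D.a i ≤ D.y i := by
  have := D.hν i {s(D.p i, D.q i)}
  simpa [a, y] using this

end Data

end Q127.EqStar
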