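import Mathlib

/-!
Equitable choosability of disjoint unions of stars.
-/

set_option autoImplicit false

namespace Q127.EqStar

/-- The disjoint union of the stars `K_{1, m i}`: the vertex `⟨i, none⟩` is the centre of the
`i`-th star and the vertices `⟨i, some l⟩` are its `m i` leaves. -/
def starUnion {n : ℕ} (m : Fin n → ℕ) : SimpleGraph (Σ i : Fin n, Option (Fin (m i))) where
  Adj u v := u.1 = v.1 ∧
    ((u.2.isNone = true ∧ v.2.isNone = false) ∨ (u.2.isNone = false ∧ v.2.isNone = true))
  symm := ⟨fun _ _ h => ⟨h.1.symm, h.2.symm.imp And.symm And.symm⟩⟩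
  loopless := ⟨fun u h => by
    rcases h.2 with ⟨h1, h2⟩ | ⟨h1, h2⟩
    · rw [h1] at h2; exact Bool.noConfusion h2
    · rw [h1] at h2; exact Bool.noConfusion h2⟩

/-- `G` is equitably `k`-choosable: for every assignment of lists of exactly `k` colours there is a
proper colouring from the lists in which every colour is used on at most `⌈|V(G)| / k⌉`
vertices. -/
def EquitablyChoosable {V : Type} [Fintype V] (G : SimpleGraph V) (k : ℕ) : Prop :=
  ∀ L : V → Finset ℕ, (∀ v, (L v).card = k) →
    ∃ c : V → ℕ, (∀ v, c v ∈ L v) ∧ (∀ u v, G.Adj u v → c u ≠ c v) ∧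
      ∀ a, (Finset.univ.filter fun v => c v = a).card ≤ ⌈(Fintype.card V : ℚ) / k⌉₊

end Q127.EqStar
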