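import Pool.Agent.Q127.EqStar.Star3

set_option autoImplicit false

namespace Q127.EqStar.Data

open Finset

variable {D : Data}

theorem Ex.unique {i : Fin 5} {c d c' d' : ℕ} (h : D.Ex i c d) (h' : D.Ex i c' d') :
    (c = c' ∧ d = d') ∨ (c = d' ∧ d = c') := by
  rcases h with ⟨k1, k2⟩ | ⟨k1, k2⟩ <;> rcases h' with ⟨k3, k4⟩ | ⟨k3, k4⟩
  · exact Or.inl ⟨k1.symm.trans k3, k2.symm.trans k4⟩
  · exact Or.inr ⟨k1.symm.trans k3, k2.symm.trans k4⟩
  · exact Or.inr ⟨k2.symm.trans k4, k1.symm.trans k3⟩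
  · exact Or.inl ⟨k2.symm.trans k4, k1.symm.trans k3⟩

theorem zz_other {i : Fin 5} {b : Bool} {c d : ℕ} (h : D.Ex i c d) (hz : D.zz i b = c) :
    D.zz i (!b) = d := by
  rcases (D.ex_iff i b c d).mp h with h1 | h1
  · exact h1.2
  · exact absurd (hz.symm.trans h1.1) h.ne

theorem not_bd (s : Fin 5 → Bool) (c d : ℕ) (X : Finset (Fin 5)) (hX : X ⊆ D.K c d)
    (hW : W (D.K c d \ X) ≤ W X) (h1 : ∀ i, D.Ex i c d → i ∈ X → D.zz i (s i) = c)
    (h2 : ∀ i, D.Ex i c d → i ∉ X → D.zz i (s i) = d) : ¬ D.Bd s c d := by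
  intro hb
  obtain ⟨hcd, h⟩ := D.pair_lemma s c d hb
  have e1 : (univ.filter fun i => D.zz i (s i) = c ∧ D.zz i (!s i) = d) = X := by
    ext i
    simp only [Finset.mem_filter, Finset.mem_univ, true_and]
    constructor
    · rintro ⟨h3, h4⟩
      have hex : D.Ex i c d := (D.ex_iff i (s i) c d).mpr (Or.inl ⟨h3, h4⟩)
      by_contra hi
      exact hcd (h3.symm.trans (h2 i hex hi))
    · intro hi
      have hex := mem_K.mp (hX hi)
      exact ⟨h1 i hex hi, zz_other hex (h1 i hex hi)⟩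
  have e2 : (univ.filter fun i => D.zz i (s i) = d ∧ D.zz i (!s i) = c) = D.K c d \ X := by
    ext i
    simp only [Finset.mem_filter, Finset.mem_univ, true_and, Finset.mem_sdiff]
    constructor
    · rintro ⟨h3, h4⟩
      have hex : D.Ex i c d := (D.ex_iff i (s i) c d).mpr (Or.inr ⟨h3, h4⟩)
      refine ⟨mem_K.mpr hex, fun hi => ?_⟩
      exact hcd ((h1 i hex hi).symm.trans h3)
    · rintro ⟨h3, h4⟩
      have hex := mem_K.mp h3
      exact ⟨h2 i hex h4, zz_other hex.symm (h2 i hex h4)⟩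
  rw [e1, e2] at h
  omega

theorem small_false (s : Fin 5 → Bool) (c d : ℕ) (X : Finset (Fin 5)) (hX : X ⊆ D.K c d)
    (h1 : ∀ i, D.Ex i c d → i ∉ X → D.zz i (s i) = c)
    (hs : 2 * ∑ i ∈ X, D.a i < ∑ i ∈ D.K c d, D.y i + 2) (hb : D.Bd s c d) : False := by
  classical
  have key : D.load s c + D.load (fl s) d + ∑ i, (if i ∈ D.K c d then D.y i else 0) ≤
      ∑ i, D.y i + ∑ i, (if i ∈ X then 2 * D.a i else 0) := by
    unfold load
    rw [← Finset.sum_add_distrib, ← Finset.sum_add_distrib, ← Finset.sum_add_distrib]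
    apply Finset.sum_le_sum
    intro i _
    simp only [fl]
    by_cases hK : i ∈ D.K c d
    · rw [if_pos hK]
      have hex := mem_K.mp hK
      by_cases hi : i ∈ X
      · rw [if_pos hi]
        rcases (D.ex_iff i (s i) c d).mp hex with h3 | h3
        · obtain ⟨f1, -, -, f2⟩ := D.vals i (s i) c d h3.1 h3.2
          omega
        · have := D.tau_ex i (s i) c d h3
          omega
      · rw [if_neg hi]
        have hz := h1 i hex hi
        obtain ⟨f1, -, -, f2⟩ := D.vals i (s i) c d hz (zz_other hex hz)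
        omega
    · rw [if_neg hK, if_neg (fun h => hK (hX h))]
      have hex : ¬ D.Ex i c d := fun h => hK (mem_K.mpr h)
      have := D.B1 i (s i) c d (fun h => hex ((D.ex_iff i (s i) c d).mpr (Or.inr h)))
      omega
  rw [D.sum_y, ← Finset.sum_filter, ← Finset.sum_filter, ← Finset.mul_sum] at key
  have e1 : (univ.filter fun i => i ∈ D.K c d) = D.K c d := by ext; simp
  have e2 : (univ.filter fun i => i ∈ X) = X := by ext; simp
  rw [e1, e2] at key
  obtain ⟨k1, k2⟩ := hb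
  omega

/-- the triangle hypothesis -/
def TC (D : Data) (x1 x2 x3 : ℕ) : Prop := ∀ s : Fin 5 → Bool, ∃ c d,
  (c = x1 ∨ c = x2 ∨ c = x3) ∧ (d = x1 ∨ d = x2 ∨ d = x3) ∧ D.Bd s c d

theorem sum_ite_mem {S : Finset (Fin 5)} (f : Fin 5 → ℕ) :
    ∑ i, (if i ∈ S then f i else 0) = ∑ i ∈ S, f i := by
  rw [← Finset.sum_filter]
  congr 1
  ext; simp

theorem sum_y_W (S : Finset (Fin 5)) : ∑ i ∈ S, D.y i = W S * D.t := by
  simp only [W, Finset.sum_mul, y]

theorem W_compl_eq : ∀ S : Finset (Fin 5), W S + W Sᶜ = 12 := by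
  unfold W wt; decide +kernel

open Classical in
theorem tri_aux (x1 x2 x3 : ℕ) (h12 : x1 ≠ x2) (h23 : x2 ≠ x3) (h31 : x3 ≠ x1)
    (HT : TC D x1 x2 x3) (X12 X23 X31 : Finset (Fin 5))
    (hX12 : X12 ⊆ D.K x1 x2) (hX23 : X23 ⊆ D.K x2 x3) (hX31 : X31 ⊆ D.K x3 x1)
    (hW12 : W (D.K x1 x2 \ X12) ≤ W X12) (hW23 : W (D.K x2 x3 \ X23) ≤ W X23)
    (hW31 : W (D.K x3 x1 \ X31) ≤ W X31) (hW : 4 * W X12 ≤ 12 + W (D.K x1 x2))
    (s0 : Fin 5 → Bool)
    (c12 : ∀ i, D.Ex i x1 x2 → (i ∈ X12 → D.zz i (s0 i) = x1) ∧ (i ∉ X12 → D.zz i (s0 i) = x2))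
    (c23 : ∀ i, D.Ex i x2 x3 → (i ∈ X23 → D.zz i (s0 i) = x2) ∧ (i ∉ X23 → D.zz i (s0 i) = x3))
    (c31 : ∀ i, D.Ex i x3 x1 → (i ∈ X31 → D.zz i (s0 i) = x3) ∧ (i ∉ X31 → D.zz i (s0 i) = x1))
    (hb : D.Bd s0 x2 x1) : False := by
  obtain ⟨B23, hB23⟩ : ∃ B : Prop, B ↔
    ∑ i ∈ D.K x2 x3, D.y i + 2 ≤ 2 * ∑ i ∈ X23, D.a i := ⟨_, Iff.rfl⟩
  obtain ⟨B31, hB31⟩ : ∃ B : Prop, B ↔
    ∑ i ∈ D.K x3 x1, D.y i + 2 ≤ 2 * ∑ i ∈ X31, D.a i := ⟨_, Iff.rfl⟩
  have n1 : ∀ i, D.Ex i x1 x2 → ¬ D.Ex i x2 x3 := by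
    intro i h h'
    rcases h.unique h' with ⟨k1, k2⟩ | ⟨k1, k2⟩
    · exact h12 k1
    · exact h31 k1.symm
  have n2 : ∀ i, D.Ex i x1 x2 → ¬ D.Ex i x3 x1 := by
    intro i h h'
    rcases h.unique h' with ⟨k1, k2⟩ | ⟨k1, k2⟩
    · exact h31 k1.symm
    · exact h23 k2
  have n3 : ∀ i, D.Ex i x2 x3 → ¬ D.Ex i x3 x1 := by
    intro i h h'
    rcases h.unique h' with ⟨k1, k2⟩ | ⟨k1, k2⟩
    · exact h23 k1
    · exact h12 k1.symm
  obtain ⟨s', hs'⟩ : ∃ s' : Fin 5 → Bool, s' = fun i =>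
    if D.Ex i x1 x2 then s0 i else if D.Ex i x2 x3 then (if B23 then s0 i else !s0 i)
    else if D.Ex i x3 x1 then (if B31 then s0 i else !s0 i) else !s0 i := ⟨_, rfl⟩
  have v12 : ∀ i, D.Ex i x1 x2 → s' i = s0 i := by
    intro i h
    rw [hs']
    simp only [if_pos h]
  have v23 : ∀ i, D.Ex i x2 x3 → (B23 → s' i = s0 i) ∧ (¬ B23 → s' i = !s0 i) := by
    intro i h
    have h' : ¬ D.Ex i x1 x2 := fun h' => n1 i h' h
    rw [hs']
    simp only [if_neg h', if_pos h]
    exact ⟨fun hB => if_pos hB, fun hB => if_neg hB⟩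
  have v31 : ∀ i, D.Ex i x3 x1 → (B31 → s' i = s0 i) ∧ (¬ B31 → s' i = !s0 i) := by
    intro i h
    have h' : ¬ D.Ex i x1 x2 := fun h' => n2 i h' h
    have h'' : ¬ D.Ex i x2 x3 := fun h' => n3 i h' h
    rw [hs']
    simp only [if_neg h', if_neg h'', if_pos h]
    exact ⟨fun hB => if_pos hB, fun hB => if_neg hB⟩
  have vR : ∀ i, ¬ D.Ex i x1 x2 → ¬ D.Ex i x2 x3 → ¬ D.Ex i x3 x1 → s' i = !s0 i := by
    intro i h1 h2 h3
    rw [hs']
    simp only [if_neg h1, if_neg h2, if_neg h3]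
  obtain ⟨c, d, hc, hd, hb'⟩ := HT s'
  have hne := (D.pair_lemma s' c d hb').1
  -- the culprit at `s'` is `(x2, x1)`
  have main : D.Bd s' x2 x1 := by
    rcases hc with rfl | rfl | rfl
    · rcases hd with rfl | rfl | rfl
      · exact absurd rfl hne
      · -- (x1, x2)
        refine absurd hb' (not_bd s' _ _ X12 hX12 hW12 ?_ ?_)
        · intro i hex hi
          rw [v12 i hex]
          exact (c12 i hex).1 hi
        · intro i hex hi
          rw [v12 i hex]
          exact (c12 i hex).2 hi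
      · -- (x1, x3)
        by_cases hB : B31
        · exfalso
          refine share_false D (fl s0) s' c x2 d h12 h31.symm h23 ?_ ?_ hb.fl hb'
          · rintro i ⟨hex, e1, e2⟩
            have := v12 i hex
            rw [this] at e2
            have h3 := D.zz_ne i (s0 i)
            simp only [fl] at e1
            exact h3 (e2.trans e1.symm)
          · rintro i ⟨hex, e1, e2⟩
            have := (v31 i hex.symm).1 hB
            rw [this] at e2
            have h3 := D.zz_ne i (s0 i)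
            simp only [fl] at e1
            exact h3 (e2.trans e1.symm)
        · refine absurd hb'.fl (not_bd (fl s') _ _ X31 hX31 hW31 ?_ ?_)
          · intro i hex hi
            simp only [fl, (v31 i hex).2 hB, Bool.not_not]
            exact (c31 i hex).1 hi
          · intro i hex hi
            simp only [fl, (v31 i hex).2 hB, Bool.not_not]
            exact (c31 i hex).2 hi
    · rcases hd with rfl | rfl | rfl
      · exact hb'
      · exact absurd rfl hne
      · -- (x2, x3)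
        by_cases hB : B23
        · refine absurd hb' (not_bd s' _ _ X23 hX23 hW23 ?_ ?_)
          · intro i hex hi
            rw [(v23 i hex).1 hB]
            exact (c23 i hex).1 hi
          · intro i hex hi
            rw [(v23 i hex).1 hB]
            exact (c23 i hex).2 hi
        · exfalso
          refine small_false s' _ _ X23 hX23 ?_ (not_le.mp fun h => hB (hB23.mpr h)) hb'
          intro i hex hi
          rw [(v23 i hex).2 hB]
          exact zz_other hex.symm ((c23 i hex).2 hi)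
    · rcases hd with rfl | rfl | rfl
      · -- (x3, x1)
        by_cases hB : B31
        · refine absurd hb' (not_bd s' _ _ X31 hX31 hW31 ?_ ?_)
          · intro i hex hi
            rw [(v31 i hex).1 hB]
            exact (c31 i hex).1 hi
          · intro i hex hi
            rw [(v31 i hex).1 hB]
            exact (c31 i hex).2 hi
        · exfalso
          refine small_false s' _ _ X31 hX31 ?_ (not_le.mp fun h => hB (hB31.mpr h)) hb'
          intro i hex hi
          rw [(v31 i hex).2 hB]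
          exact zz_other hex.symm ((c31 i hex).2 hi)
      · -- (x3, x2)
        by_cases hB : B23
        · exfalso
          refine share_false D s0 (fl s') d x1 c h12.symm h23 h31.symm ?_ ?_ hb hb'.fl
          · rintro i ⟨hex, e1, e2⟩
            simp only [fl, v12 i hex.symm] at e2
            exact D.zz_ne i (s0 i) (e1.trans e2.symm)
          · rintro i ⟨hex, e1, e2⟩
            simp only [fl, (v23 i hex).1 hB] at e2
            exact D.zz_ne i (s0 i) (e1.trans e2.symm)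
        · refine absurd hb'.fl (not_bd (fl s') _ _ X23 hX23 hW23 ?_ ?_)
          · intro i hex hi
            simp only [fl, (v23 i hex).2 hB, Bool.not_not]
            exact (c23 i hex).1 hi
          · intro i hex hi
            simp only [fl, (v23 i hex).2 hB, Bool.not_not]
            exact (c23 i hex).2 hi
      · exact absurd rfl hne
  -- the final sum
  have key : D.load s0 x2 + D.load (fl s0) x1 + (D.load s' x2 + D.load (fl s') x1) +
      (∑ i, (if i ∈ X23 then (if B23 then 2 * D.a i else 0) else 0) +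
       ∑ i, (if i ∈ X31 then (if B31 then 2 * D.a i else 0) else 0)) ≤
      ∑ i, (if i ∈ X12 then 4 * D.y i else 0) + ∑ i, (if i ∈ (D.K x1 x2)ᶜ then D.y i else 0) +
      (∑ i, (if i ∈ D.K x2 x3 then (if B23 then D.y i else 0) else 0) +
       ∑ i, (if i ∈ D.K x3 x1 then (if B31 then D.y i else 0) else 0)) := by
    unfold load
    simp only [← Finset.sum_add_distrib]
    apply Finset.sum_le_sum
    intro i _
    have ha := D.a_le i
    simp only [fl]
    by_cases e12 : D.Ex i x1 x2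
    · have m1 : i ∉ X23 := fun h => n1 i e12 (mem_K.mp (hX23 h))
      have m2 : i ∉ X31 := fun h => n2 i e12 (mem_K.mp (hX31 h))
      rw [if_neg m1, if_neg m2, v12 i e12]
      by_cases hi : i ∈ X12
      · rw [if_pos hi]
        have hz := (c12 i e12).1 hi
        have := D.tau_ex i (s0 i) x2 x1 ⟨hz, zz_other e12 hz⟩
        omega
      · have hz := (c12 i e12).2 hi
        obtain ⟨f1, -, -, f2⟩ := D.vals i (s0 i) x2 x1 hz (zz_other e12.symm hz)
        omega
    · have m1 : i ∉ X12 := fun h => e12 (mem_K.mp (hX12 h))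
      have m2 : i ∈ (D.K x1 x2)ᶜ := by
        rw [Finset.mem_compl, mem_K]
        exact e12
      have e21 : ¬ D.Ex i x2 x1 := fun h => e12 h.symm
      have t0 := D.B1 i (s0 i) x2 x1 (fun h => e12 ((D.ex_iff i (s0 i) x1 x2).mpr (Or.inl h)))
      have tm := D.m2 i (s0 i) x2 x1 h12.symm e21
      rw [if_neg m1, if_pos m2]
      by_cases e23 : D.Ex i x2 x3
      · have m3 : i ∉ X31 := fun h => n3 i e23 (mem_K.mp (hX31 h))
        have m4 : i ∈ D.K x2 x3 := mem_K.mpr e23
        have m5 : i ∉ D.K x3 x1 := fun h => n3 i e23 (mem_K.mp h)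
        rw [if_neg m3, if_pos m4, if_neg m5]
        by_cases hB : B23
        · rw [(v23 i e23).1 hB, if_pos hB, if_pos hB]
          by_cases hi : i ∈ X23
          · rw [if_pos hi]
            have hz := (c23 i e23).1 hi
            obtain ⟨f1, -, -, f2⟩ := D.vals i (s0 i) x2 x3 hz (zz_other e23 hz)
            have := D.m3 i (s0 i) x2 x3 x1 e23 h12 h31.symm
            omega
          · rw [if_neg hi]
            omega
        · rw [(v23 i e23).2 hB, if_neg hB, if_neg hB, Bool.not_not]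
          split_ifs <;> omega
      · have m3 : i ∉ X23 := fun h => e23 (mem_K.mp (hX23 h))
        have m4 : i ∉ D.K x2 x3 := fun h => e23 (mem_K.mp h)
        rw [if_neg m3, if_neg m4]
        by_cases e31 : D.Ex i x3 x1
        · have m5 : i ∈ D.K x3 x1 := mem_K.mpr e31
          rw [if_pos m5]
          by_cases hB : B31
          · rw [(v31 i e31).1 hB, if_pos hB, if_pos hB]
            by_cases hi : i ∈ X31
            · rw [if_pos hi]
              have hz := (c31 i e31).1 hi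
              obtain ⟨f1, -, -, f2⟩ := D.vals i (s0 i) x3 x1 hz (zz_other e31 hz)
              have := D.m3 i (s0 i) x3 x1 x2 e31 h23 h12.symm
              omega
            · rw [if_neg hi]
              omega
          · rw [(v31 i e31).2 hB, if_neg hB, if_neg hB, Bool.not_not]
            split_ifs <;> omega
        · have m5 : i ∉ D.K x3 x1 := fun h => e31 (mem_K.mp h)
          have m6 : i ∉ X31 := fun h => e31 (mem_K.mp (hX31 h))
          rw [vR i e12 e23 e31, if_neg m5, if_neg m6, Bool.not_not]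
          omega
  rw [sum_ite_mem, sum_ite_mem, sum_ite_mem, sum_ite_mem, sum_ite_mem, sum_ite_mem,
    ← Finset.mul_sum, sum_y_W, sum_y_W] at key
  have k1 : (∑ i ∈ D.K x2 x3, if B23 then D.y i else 0) ≤ ∑ i ∈ X23, if B23 then 2 * D.a i else 0 := by
    by_cases hB : B23
    · simp only [if_pos hB]
      rw [← Finset.mul_sum]
      have : ∑ i ∈ D.K x2 x3, D.y i + 2 ≤ 2 * ∑ i ∈ X23, D.a i := hB23.mp hB
      omega
    · simp [if_neg hB]
  have k2 : (∑ i ∈ D.K x3 x1, if B31 then D.y i else 0) ≤ ∑ i ∈ X31, if B31 then 2 * D.a i else 0 := by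
    by_cases hB : B31
    · simp only [if_pos hB]
      rw [← Finset.mul_sum]
      have : ∑ i ∈ D.K x3 x1, D.y i + 2 ≤ 2 * ∑ i ∈ X31, D.a i := hB31.mp hB
      omega
    · simp [if_neg hB]
  have k3 : 4 * W X12 + W (D.K x1 x2)ᶜ ≤ 24 := by
    have := W_compl_eq (D.K x1 x2)
    omega
  have k4 := Nat.mul_le_mul_right D.t k3
  obtain ⟨q1, q2⟩ := hb
  obtain ⟨q3, q4⟩ := main
  have k5 : (4 * W X12 + W (D.K x1 x2)ᶜ) * D.t = 4 * (W X12 * D.t) + W (D.K x1 x2)ᶜ * D.t := by
    ring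
  omega

theorem good_half : ∀ E : Finset (Fin 5), ∃ X, X ⊆ E ∧ W (E \ X) ≤ W X ∧ 4 * W X ≤ 12 + W E := by
  unfold W wt; decide +kernel

open Classical in
theorem tri_false (x1 x2 x3 : ℕ) (h12 : x1 ≠ x2) (h23 : x2 ≠ x3) (h31 : x3 ≠ x1)
    (HT : TC D x1 x2 x3) : False := by
  obtain ⟨X12, hX12, a12, b12⟩ := good_half (D.K x1 x2)
  obtain ⟨X23, hX23, a23, b23⟩ := good_half (D.K x2 x3)
  obtain ⟨X31, hX31, a31, b31⟩ := good_half (D.K x3 x1)
  have n1 : ∀ i, D.Ex i x1 x2 → ¬ D.Ex i x2 x3 := by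
    intro i h h'
    rcases h.unique h' with ⟨k1, k2⟩ | ⟨k1, k2⟩
    · exact h12 k1
    · exact h31 k1.symm
  have n2 : ∀ i, D.Ex i x1 x2 → ¬ D.Ex i x3 x1 := by
    intro i h h'
    rcases h.unique h' with ⟨k1, k2⟩ | ⟨k1, k2⟩
    · exact h31 k1.symm
    · exact h23 k2
  have n3 : ∀ i, D.Ex i x2 x3 → ¬ D.Ex i x3 x1 := by
    intro i h h'
    rcases h.unique h' with ⟨k1, k2⟩ | ⟨k1, k2⟩
    · exact h23 k1
    · exact h12 k1.symm
  obtain ⟨s0, hs0⟩ : ∃ s0 : Fin 5 → Bool, s0 = fun i =>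
    if D.Ex i x1 x2 then (if i ∈ X12 then D.bx x1 i else D.bx x2 i)
    else if D.Ex i x2 x3 then (if i ∈ X23 then D.bx x2 i else D.bx x3 i)
    else (if i ∈ X31 then D.bx x3 i else D.bx x1 i) := ⟨_, rfl⟩
  have c12 : ∀ i, D.Ex i x1 x2 → (i ∈ X12 → D.zz i (s0 i) = x1) ∧
      (i ∉ X12 → D.zz i (s0 i) = x2) := by
    intro i h
    rw [hs0]
    simp only [if_pos h]
    constructor
    · intro hi
      rw [if_pos hi]
      exact D.zz_bx x1 i h.E1
    · intro hi
      rw [if_neg hi]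
      exact D.zz_bx x2 i h.symm.E1
  have c23 : ∀ i, D.Ex i x2 x3 → (i ∈ X23 → D.zz i (s0 i) = x2) ∧
      (i ∉ X23 → D.zz i (s0 i) = x3) := by
    intro i h
    have h' : ¬ D.Ex i x1 x2 := fun h' => n1 i h' h
    rw [hs0]
    simp only [if_neg h', if_pos h]
    constructor
    · intro hi
      rw [if_pos hi]
      exact D.zz_bx x2 i h.E1
    · intro hi
      rw [if_neg hi]
      exact D.zz_bx x3 i h.symm.E1
  have c31 : ∀ i, D.Ex i x3 x1 → (i ∈ X31 → D.zz i (s0 i) = x3) ∧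
      (i ∉ X31 → D.zz i (s0 i) = x1) := by
    intro i h
    have h' : ¬ D.Ex i x1 x2 := fun h' => n2 i h' h
    have h'' : ¬ D.Ex i x2 x3 := fun h' => n3 i h' h
    rw [hs0]
    simp only [if_neg h', if_neg h'']
    constructor
    · intro hi
      rw [if_pos hi]
      exact D.zz_bx x3 i h.E1
    · intro hi
      rw [if_neg hi]
      exact D.zz_bx x1 i h.symm.E1
  have HT' : TC D x2 x3 x1 := by
    intro s
    obtain ⟨c, d, hc, hd, h⟩ := HT s
    exact ⟨c, d, by tauto, by tauto, h⟩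
  have HT'' : TC D x3 x1 x2 := by
    intro s
    obtain ⟨c, d, hc, hd, h⟩ := HT s
    exact ⟨c, d, by tauto, by tauto, h⟩
  have N12 : ¬ D.Bd s0 x1 x2 := not_bd s0 _ _ X12 hX12 a12 (fun i hex hi => (c12 i hex).1 hi)
    (fun i hex hi => (c12 i hex).2 hi)
  have N23 : ¬ D.Bd s0 x2 x3 := not_bd s0 _ _ X23 hX23 a23 (fun i hex hi => (c23 i hex).1 hi)
    (fun i hex hi => (c23 i hex).2 hi)
  have N31 : ¬ D.Bd s0 x3 x1 := not_bd s0 _ _ X31 hX31 a31 (fun i hex hi => (c31 i hex).1 hi)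
    (fun i hex hi => (c31 i hex).2 hi)
  have A12 : ¬ D.Bd s0 x2 x1 := fun hb => tri_aux x1 x2 x3 h12 h23 h31 HT X12 X23 X31
    hX12 hX23 hX31 a12 a23 a31 b12 s0 c12 c23 c31 hb
  have A23 : ¬ D.Bd s0 x3 x2 := fun hb => tri_aux x2 x3 x1 h23 h31 h12 HT' X23 X31 X12
    hX23 hX31 hX12 a23 a31 a12 b23 s0 c23 c31 c12 hb
  have A31 : ¬ D.Bd s0 x1 x3 := fun hb => tri_aux x3 x1 x2 h31 h12 h23 HT'' X31 X12 X23
    hX31 hX12 hX23 a31 a12 a23 b31 s0 c31 c12 c23 hb
  obtain ⟨c, d, hc, hd, hb⟩ := HT s0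
  have hne := (D.pair_lemma s0 c d hb).1
  rcases hc with hc | hc | hc <;> rcases hd with hd | hd | hd <;> rw [hc, hd] at hb hne
  · exact hne rfl
  · exact N12 hb
  · exact A31 hb
  · exact A12 hb
  · exact hne rfl
  · exact N23 hb
  · exact N31 hb
  · exact A23 hb
  · exact hne rfl

/-- The core theorem: some choice of the centres leaves no colour overloaded. -/
theorem core (D : Data) : ∃ s : Fin 5 → Bool, ∀ c, D.load s c ≤ 6 * D.t := by
  by_contra hno
  push Not at hno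
  choose c hc using hno
  have hB : ∀ s, D.Bd s (c s) (c (fl s)) := fun s => ⟨hc s, hc (fl s)⟩
  have hne : ∀ s, c s ≠ c (fl s) := fun s => (D.pair_lemma s _ _ (hB s)).1
  -- any two pairs intersect
  have hint : ∀ s s', c s = c s' ∨ c s = c (fl s') ∨ c (fl s) = c s' ∨ c (fl s) = c (fl s') := by
    intro s s'
    by_contra hcon
    push Not at hcon
    obtain ⟨h1, h2, h3, h4⟩ := hcon
    exact D.disj_false s s' _ _ _ _ (hne s) (hne s') h1 h2 h3 h4 (hB s) (hB s')
  -- star case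
  have star : ∀ x, ¬ ∀ s, c s = x ∨ c (fl s) = x := by
    intro x hx
    refine star_false (D := D) (x := x) ?_
    intro s
    rcases hx s with h | h
    · left
      refine ⟨c (fl s), ?_, ?_⟩
      · rw [← h]; exact (hne s).symm
      · rw [← h]; exact hB s
    · right
      refine ⟨c s, ?_, ?_⟩
      · rw [← h]; exact hne s
      · rw [← h]; exact hB s
  let s0 : Fin 5 → Bool := fun _ => false
  obtain ⟨x1, hx1⟩ : ∃ x1, x1 = c s0 := ⟨_, rfl⟩
  obtain ⟨x2, hx2⟩ : ∃ x2, x2 = c (fl s0) := ⟨_, rfl⟩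
  have h12 : x1 ≠ x2 := by rw [hx1, hx2]; exact hne s0
  -- a state avoiding `x1`
  have hs1 := star x1
  push Not at hs1
  obtain ⟨s1, h1a, h1b⟩ := hs1
  have hs2 := star x2
  push Not at hs2
  obtain ⟨s2, h2a, h2b⟩ := hs2
  -- `s1` has pair `{x2, x3}`
  obtain ⟨x3, hx3, hx32, hx31⟩ : ∃ x3, ((c s1 = x2 ∧ c (fl s1) = x3) ∨ (c s1 = x3 ∧ c (fl s1) = x2)) ∧
      x3 ≠ x2 ∧ x3 ≠ x1 := by
    rcases hint s1 s0 with h | h | h | h
    · exact absurd (h.trans hx1.symm) h1a
    · refine ⟨c (fl s1), Or.inl ⟨h.trans hx2.symm, rfl⟩, ?_, h1b⟩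
      rw [hx2, ← h]
      exact (hne s1).symm
    · exact absurd (h.trans hx1.symm) h1b
    · refine ⟨c s1, Or.inr ⟨rfl, h.trans hx2.symm⟩, ?_, h1a⟩
      rw [hx2, ← h]
      exact hne s1
  -- `s2` has pair `{x1, x3}`
  have hp2 : (c s2 = x1 ∧ c (fl s2) = x3) ∨ (c s2 = x3 ∧ c (fl s2) = x1) := by
    have q1 : c s2 = x1 ∨ c (fl s2) = x1 := by
      rcases hint s2 s0 with h | h | h | h
      · exact Or.inl (h.trans hx1.symm)
      · exact absurd (h.trans hx2.symm) h2a
      · exact Or.inr (h.trans hx1.symm)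
      · exact absurd (h.trans hx2.symm) h2b
    have q2 : c s2 = x3 ∨ c (fl s2) = x3 := by
      rcases hx3 with ⟨e1, e2⟩ | ⟨e1, e2⟩ <;> rcases hint s2 s1 with h | h | h | h <;>
        simp only [e1, e2] at h <;> tauto
    rcases q1 with q1 | q1 <;> rcases q2 with q2 | q2
    · exact absurd (q2.symm.trans q1) hx31
    · exact Or.inl ⟨q1, q2⟩
    · exact Or.inr ⟨q2, q1⟩
    · exact absurd (q2.symm.trans q1) hx31
  refine tri_false (D := D) x1 x2 x3 h12 hx32.symm hx31 ?_
  intro s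
  refine ⟨c s, c (fl s), ?_, ?_, hB s⟩
  · have i0 := hint s s0
    have i1 := hint s s1
    have i2 := hint s s2
    rw [← hx1, ← hx2] at i0
    have hn := hne s
    by_contra hcon
    push Not at hcon
    obtain ⟨k1, k2, k3⟩ := hcon
    rcases hx3 with ⟨e1, e2⟩ | ⟨e1, e2⟩ <;> rcases hp2 with ⟨e3, e4⟩ | ⟨e3, e4⟩ <;>
      simp only [e1, e2, e3, e4] at i1 i2 <;> omega
  · have i0 := hint s s0
    have i1 := hint s s1
    have i2 := hint s s2
    rw [← hx1, ← hx2] at i0
    have hn := hne s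
    by_contra hcon
    push Not at hcon
    obtain ⟨k1, k2, k3⟩ := hcon
    rcases hx3 with ⟨e1, e2⟩ | ⟨e1, e2⟩ <;> rcases hp2 with ⟨e3, e4⟩ | ⟨e3, e4⟩ <;>
      simp only [e1, e2, e3, e4] at i1 i2 <;> omega

end Q127.EqStar.Data
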