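import Pool.Agent.Q127.EqStar.Defs
import Pool.Agent.Q127.EqStar.Tri

set_option autoImplicit false

namespace Q127.EqStar

open Finset

/-- Hall extension -/
theorem hall_ext {V : Type} [Fintype V] [DecidableEq V] (cap : ℕ) (hN : Fintype.card V ≤ 2 * cap)
    (S : V → Finset ℕ) (hne : ∀ v, (S v).Nonempty)
    (hforced : ∀ c, (univ.filter fun v => S v = {c}).card ≤ cap) :
    ∃ f : V → ℕ, (∀ v, f v ∈ S v) ∧ ∀ c, (univ.filter fun v => f v = c).card ≤ cap := by
  classical
  have hall : ∀ T : Finset V, T.card ≤ (T.biUnion fun v => S v ×ˢ (univ : Finset (Fin cap))).card := by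
    intro T
    have e : (T.biUnion fun v => S v ×ˢ (univ : Finset (Fin cap))) =
        (T.biUnion S) ×ˢ (univ : Finset (Fin cap)) := by
      ext ⟨a, b⟩
      simp
    rw [e, Finset.card_product, Finset.card_univ, Fintype.card_fin]
    rcases T.eq_empty_or_nonempty with rfl | ⟨v0, hv0⟩
    · simp
    · have hT : T.card ≤ 2 * cap := (Finset.card_le_univ T).trans hN
      have h1 : 1 ≤ (T.biUnion S).card := by
        rw [Nat.one_le_iff_ne_zero, ← Nat.pos_iff_ne_zero, Finset.card_pos]
        obtain ⟨a, ha⟩ := hne v0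
        exact ⟨a, Finset.mem_biUnion.mpr ⟨v0, hv0, ha⟩⟩
      rcases Nat.lt_or_ge (T.biUnion S).card 2 with h2 | h2
      · have h3 : (T.biUnion S).card = 1 := by omega
        obtain ⟨c, hc⟩ := Finset.card_eq_one.mp h3
        rw [hc, Finset.card_singleton, one_mul]
        refine le_trans (Finset.card_le_card ?_) (hforced c)
        intro v hv
        rw [Finset.mem_filter]
        refine ⟨Finset.mem_univ _, ?_⟩
        have hsub : S v ⊆ {c} := hc ▸ Finset.subset_biUnion_of_mem S hv
        rcases Finset.subset_singleton_iff.mp hsub with h | h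
        · exact absurd h (hne v).ne_empty
        · exact h
      · calc T.card ≤ 2 * cap := hT
          _ ≤ _ := Nat.mul_le_mul_right _ h2
  obtain ⟨f, hinj, hf⟩ := (Finset.all_card_le_biUnion_card_iff_exists_injective _).mp hall
  refine ⟨fun v => (f v).1, fun v => (Finset.mem_product.mp (hf v)).1, fun c => ?_⟩
  calc (univ.filter fun v => (f v).1 = c).card
      = ((univ.filter fun v => (f v).1 = c).image f).card :=
        (Finset.card_image_of_injective _ hinj).symm
    _ ≤ (({c} : Finset ℕ) ×ˢ (univ : Finset (Fin cap))).card := by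
        apply Finset.card_le_card
        intro p hp
        rw [Finset.mem_image] at hp
        obtain ⟨v, hv, rfl⟩ := hp
        rw [Finset.mem_product]
        exact ⟨by simpa using hv, Finset.mem_univ _⟩
    _ = cap := by simp

theorem card_filter_sigma {n : ℕ} (m : Fin n → ℕ)
    (P : (Σ i : Fin n, Option (Fin (m i))) → Prop) [DecidablePred P] :
    (univ.filter P).card =
      ∑ i, ((if P ⟨i, none⟩ then 1 else 0) + (univ.filter fun l => P ⟨i, some l⟩).card) := by
  rw [Finset.card_filter, Fintype.sum_sigma]
  apply Finset.sum_congr rfl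
  intro i _
  rw [Fintype.sum_option, Finset.card_filter]

theorem card_V {n : ℕ} (m : Fin n → ℕ) :
    Fintype.card (Σ i : Fin n, Option (Fin (m i))) = ∑ i, (m i + 1) := by
  rw [Fintype.card_sigma]
  simp

/-- the family -/
def fam (r t : ℕ) : Fin (r + 5) → ℕ := Fin.append (fun _ => 1) (fun k => wt k * t + 1)

theorem fam_left (r t : ℕ) (i : Fin r) : fam r t (Fin.castAdd 5 i) = 1 := by
  simp [fam]

theorem fam_right (r t : ℕ) (k : Fin 5) : fam r t (Fin.natAdd r k) = wt k * t + 1 := by
  simp [fam]

theorem sum_sub_one {α : Type} (S : Finset α) (f : α → ℕ) :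
    ∑ e ∈ S, (f e - 1) ≤ ∑ e ∈ S, f e - 1 := by
  classical
  by_cases h : ∀ e ∈ S, f e = 0
  · rw [Finset.sum_eq_zero (fun e he => by simp [h e he])]
    exact Nat.zero_le _
  · push Not at h
    obtain ⟨e0, he0, h0⟩ := h
    have : ∑ e ∈ S, (f e - 1) < ∑ e ∈ S, f e :=
      Finset.sum_lt_sum (fun e _ => Nat.sub_le _ _) ⟨e0, he0, by omega⟩
    omega

open Classical in
theorem sum_match {α : Type} [Fintype α] (Lf : α → Finset ℕ) (S : Finset (Sym2 ℕ)) :
    ∑ e ∈ S, (univ.filter fun l : α => ∀ a, a ∈ Lf l ↔ a ∈ e).card ≤ Fintype.card α := by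
  classical
  have h : ∀ l : α, (S.filter fun e => ∀ a, a ∈ Lf l ↔ a ∈ e).card ≤ 1 := by
    intro l
    rw [Finset.card_le_one]
    intro e he e' he'
    rw [Finset.mem_filter] at he he'
    apply Sym2.ext
    intro a
    rw [← he.2 a, ← he'.2 a]
  calc ∑ e ∈ S, (univ.filter fun l : α => ∀ a, a ∈ Lf l ↔ a ∈ e).card
      = ∑ e ∈ S, ∑ l, (if (∀ a, a ∈ Lf l ↔ a ∈ e) then 1 else 0) := by
        apply Finset.sum_congr rfl
        intro e _
        rw [Finset.card_filter]
    _ = ∑ l, ∑ e ∈ S, (if (∀ a, a ∈ Lf l ↔ a ∈ e) then 1 else 0) := Finset.sum_comm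
    _ = ∑ l, (S.filter fun e => ∀ a, a ∈ Lf l ↔ a ∈ e).card := by
        apply Finset.sum_congr rfl
        intro l _
        rw [Finset.card_filter]
    _ ≤ ∑ _l : α, 1 := Finset.sum_le_sum fun l _ => h l
    _ = Fintype.card α := by simp

open Classical in
/-- The graphs of the family are equitably 2-choosable. -/
theorem family (r t : ℕ) : EquitablyChoosable (starUnion (fam r t)) 2 := by
  intro L hL
  -- lists of the centres
  have h1 : ∀ k : Fin 5, ∃ pq : ℕ × ℕ, pq.1 ≠ pq.2 ∧ L ⟨Fin.natAdd r k, none⟩ = {pq.1, pq.2} := by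
    intro k
    obtain ⟨p, q, hpq, h⟩ := Finset.card_eq_two.mp (hL ⟨Fin.natAdd r k, none⟩)
    exact ⟨(p, q), hpq, h⟩
  choose pq hpq hLpq using h1
  let M : (k : Fin 5) → Sym2 ℕ → ℕ := fun k e =>
    (univ.filter fun l : Fin (fam r t (Fin.natAdd r k)) =>
      ∀ a, a ∈ L ⟨Fin.natAdd r k, some l⟩ ↔ a ∈ e).card
  have hν : ∀ (k : Fin 5) (S : Finset (Sym2 ℕ)), ∑ e ∈ S, (M k e - 1) ≤ wt k * t := by
    intro k S
    have h2 := sum_sub_one S (M k)
    have h3 := sum_match (fun l : Fin (fam r t (Fin.natAdd r k)) => L ⟨Fin.natAdd r k, some l⟩) S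
    rw [Fintype.card_fin] at h3
    have h4 : ∑ e ∈ S, M k e ≤ wt k * t + 1 := h3.trans (le_of_eq (fam_right r t k))
    omega
  let D : Data := ⟨t, fun k => (pq k).1, fun k => (pq k).2, hpq, fun k e => M k e - 1, hν⟩
  obtain ⟨s, hs⟩ := Data.core D
  -- colours of the centres
  have hz : ∃ z : Fin (r + 5) → ℕ, (∀ i, z i ∈ L ⟨i, none⟩) ∧
      ∀ k, z (Fin.natAdd r k) = D.zz k (s k) := by
    have hnon : ∀ i, (L ⟨i, none⟩).Nonempty := by
      intro i
      rw [← Finset.card_pos, hL]
      norm_num
    choose z0 hz0 using hnon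
    refine ⟨Fin.addCases (fun i => z0 (Fin.castAdd 5 i)) (fun k => D.zz k (s k)), ?_, ?_⟩
    · intro i
      refine Fin.addCases (fun i => ?_) (fun k => ?_) i
      · simp only [Fin.addCases_left]
        exact hz0 _
      · simp only [Fin.addCases_right]
        rw [hLpq]
        simp only [Data.zz, D]
        cases s k <;> simp
    · intro k
      simp only [Fin.addCases_right]
  obtain ⟨z, hzL, hzs⟩ := hz
  -- the residual lists
  let S : (Σ i : Fin (r + 5), Option (Fin (fam r t i))) → Finset ℕ := fun v =>
    if v.2.isNone then {z v.1} else (L v).erase (z v.1)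
  have hSn : ∀ i, S ⟨i, none⟩ = {z i} := fun i => rfl
  have hSs : ∀ i l, S ⟨i, some l⟩ = (L ⟨i, some l⟩).erase (z i) := fun i l => rfl
  have hsum : ∀ f : Fin (r + 5) → ℕ, ∑ i, f i =
      ∑ i : Fin r, f (Fin.castAdd 5 i) + ∑ k : Fin 5, f (Fin.natAdd r k) := fun f => Fin.sum_univ_add f
  have hNcard : Fintype.card (Σ i : Fin (r + 5), Option (Fin (fam r t i))) =
      2 * (6 * t + (r + 5)) := by
    rw [card_V, hsum]
    simp only [fam_left, fam_right]
    have : ∑ k : Fin 5, (wt k * t + 1 + 1) = 12 * t + 10 := by
      simp only [Fin.sum_univ_five, wt]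
      simp
      ring
    rw [this]
    simp
    ring
  have hne : ∀ v, (S v).Nonempty := by
    rintro ⟨i, o⟩
    cases o with
    | none => rw [hSn]; exact Finset.singleton_nonempty _
    | some l =>
      rw [hSs, ← Finset.card_pos]
      have := Finset.pred_card_le_card_erase (s := L ⟨i, some l⟩) (a := z i)
      rw [hL] at this
      omega
  have hforced : ∀ c, (univ.filter fun v => S v = {c}).card ≤ 6 * t + (r + 5) := by
    intro c
    rw [card_filter_sigma, hsum]
    -- a star coloured `c` in the centre
    have hcen : ∀ i, z i = c → (univ.filter fun l => S ⟨i, some l⟩ = {c}).card = 0 := by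
      intro i hi
      rw [Finset.card_eq_zero, Finset.filter_eq_empty_iff]
      intro l _ h
      rw [hSs, hi] at h
      have : c ∈ (L ⟨i, some l⟩).erase c := by rw [h]; simp
      simp at this
    have small : ∀ i : Fin r, ((if S ⟨Fin.castAdd 5 i, none⟩ = {c} then 1 else 0) +
        (univ.filter fun l => S ⟨Fin.castAdd 5 i, some l⟩ = {c}).card) ≤ 1 := by
      intro i
      by_cases hi : z (Fin.castAdd 5 i) = c
      · rw [hcen _ hi]
        split_ifs <;> omega
      · rw [if_neg]
        · rw [zero_add]
          refine (Finset.card_le_univ _).trans ?_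
          rw [Fintype.card_fin, fam_left]
        · rw [hSn]
          intro h
          exact hi (Finset.singleton_injective h)
    have big : ∀ k : Fin 5, ((if S ⟨Fin.natAdd r k, none⟩ = {c} then 1 else 0) +
        (univ.filter fun l => S ⟨Fin.natAdd r k, some l⟩ = {c}).card) ≤ 1 + D.g k (s k) c := by
      intro k
      by_cases hi : z (Fin.natAdd r k) = c
      · rw [hcen _ hi]
        split_ifs <;> omega
      · rw [if_neg]
        · rw [zero_add]
          have hne' : c ≠ D.zz k (s k) := by
            rw [← hzs k]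
            exact fun h => hi h.symm
          have hg : D.g k (s k) c = M k s(D.zz k (s k), c) - 1 := by
            unfold Data.g
            rw [if_neg hne']
          rw [hg]
          have : (univ.filter fun l => S ⟨Fin.natAdd r k, some l⟩ = {c}).card ≤
              M k s(D.zz k (s k), c) := by
            apply Finset.card_le_card
            intro l hl
            rw [Finset.mem_filter] at hl ⊢
            refine ⟨Finset.mem_univ _, ?_⟩
            have h5 := hl.2
            rw [hSs, hzs k] at h5
            have h6 := hL ⟨Fin.natAdd r k, some l⟩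
            have h7 : D.zz k (s k) ∈ L ⟨Fin.natAdd r k, some l⟩ := by
              by_contra h8
              rw [Finset.erase_eq_of_notMem h8] at h5
              rw [h5, Finset.card_singleton] at h6
              omega
            intro a
            rw [← Finset.insert_erase h7, h5]
            simp
          omega
        · rw [hSn]
          intro h
          exact hi (Finset.singleton_injective h)
    have h8 : ∑ i : Fin r, ((if S ⟨Fin.castAdd 5 i, none⟩ = {c} then 1 else 0) +
        (univ.filter fun l => S ⟨Fin.castAdd 5 i, some l⟩ = {c}).card) ≤ r := by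
      refine (Finset.sum_le_sum fun i _ => small i).trans ?_
      simp
    have h9 : ∑ k : Fin 5, ((if S ⟨Fin.natAdd r k, none⟩ = {c} then 1 else 0) +
        (univ.filter fun l => S ⟨Fin.natAdd r k, some l⟩ = {c}).card) ≤ 5 + D.load s c := by
      refine (Finset.sum_le_sum fun k _ => big k).trans ?_
      rw [Finset.sum_add_distrib]
      simp [Data.load]
    have h10 : D.load s c ≤ 6 * t := hs c
    omega
  obtain ⟨f, hf, hcount⟩ := hall_ext (6 * t + (r + 5)) (le_of_eq hNcard) S hne hforced
  refine ⟨f, ?_, ?_, ?_⟩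
  · rintro ⟨i, o⟩
    have := hf ⟨i, o⟩
    cases o with
    | none =>
      rw [hSn, Finset.mem_singleton] at this
      rw [this]
      exact hzL i
    | some l =>
      rw [hSs] at this
      exact (Finset.mem_erase.mp this).2
  · have aux : ∀ i l, f ⟨i, none⟩ ≠ f ⟨i, some l⟩ := by
      intro i l
      have h1 := hf ⟨i, none⟩
      have h2 := hf ⟨i, some l⟩
      rw [hSn, Finset.mem_singleton] at h1
      rw [hSs, Finset.mem_erase] at h2
      rw [h1]
      exact h2.1.symm
    rintro ⟨i, o⟩ ⟨j, o'⟩ ⟨hij, h⟩
    simp only at hij h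
    subst hij
    cases o with
    | none =>
      cases o' with
      | none => simp at h
      | some l => exact aux i l
    | some l =>
      cases o' with
      | none => exact (aux i l).symm
      | some l' => simp at h
  · intro a
    refine (hcount a).trans ?_
    have : ((Fintype.card (Σ i : Fin (r + 5), Option (Fin (fam r t i))) : ℚ) / ((2 : ℕ) : ℚ)) =
        ((6 * t + (r + 5) : ℕ) : ℚ) := by
      rw [hNcard]
      push_cast
      ring
    rw [this, Nat.ceil_natCast]

theorem fam_mono (r t : ℕ) : Monotone (fam r t) := by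
  have hwt : Monotone wt := by
    unfold wt; decide
  intro i j
  refine Fin.addCases (fun i => ?_) (fun k => ?_) i <;>
  refine Fin.addCases (fun j => ?_) (fun k' => ?_) j <;> intro hij
  · rw [fam_left, fam_left]
  · rw [fam_left, fam_right]
    exact Nat.le_add_left _ _
  · exfalso
    have := Fin.le_def.mp hij
    simp at this
    omega
  · rw [fam_right, fam_right]
    have : k ≤ k' := by
      have := Fin.le_def.mp hij
      simp at this
      exact this
    have := hwt this
    have := Nat.mul_le_mul_right t this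
    omega

theorem fam_inj (r : ℕ) : Function.Injective (fam r) := by
  intro t t' h
  have := congrFun h (Fin.natAdd r 4)
  rw [fam_right, fam_right] at this
  simp [wt] at this
  exact this

theorem fam_pos (r t : ℕ) (i) : 1 ≤ fam r t i := by
  refine Fin.addCases (fun i => ?_) (fun k => ?_) i
  · rw [fam_left]
  · rw [fam_right]
    exact Nat.le_add_left _ _

theorem infinite (n : ℕ) (hn : 5 ≤ n) :
    {m : Fin n → ℕ | Monotone m ∧ (∀ i, 1 ≤ m i) ∧ EquitablyChoosable (starUnion m) 2}.Infinite := by
  obtain ⟨r, rfl⟩ : ∃ r, n = r + 5 := ⟨n - 5, by omega⟩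
  refine (Set.infinite_range_of_injective (fam_inj r)).mono ?_
  rintro _ ⟨t, rfl⟩
  exact ⟨fam_mono r t, fam_pos r t, family r t⟩

end Q127.EqStar
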