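import Pool.Agent.Q127.EqStar.Family

set_option autoImplicit false

namespace Q127.EqStar

open Finset

theorem count_mod (m r : ℕ) (hr : r < 4) :
    m / 4 ≤ (univ.filter fun l : Fin m => l.val % 4 = r).card := by
  classical
  have h : ∀ j : Fin (m / 4), 4 * j.val + r < m := by
    intro j
    have := j.isLt
    omega
  calc m / 4 = (univ : Finset (Fin (m / 4))).card := by simp
    _ ≤ _ := by
      apply Finset.card_le_card_of_injOn (fun j => (⟨4 * j.val + r, h j⟩ : Fin m))
      · intro j _
        simp only [Finset.coe_filter, Finset.mem_univ, true_and, Set.mem_ofPred_eq]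
        omega
      · intro j _ j' _ hjj
        simp only [Fin.mk.injEq] at hjj
        ext
        omega

open Classical in
theorem bad {n : ℕ} (m : Fin n → ℕ) (A : Fin n → Bool)
    (h : EquitablyChoosable (starUnion m) 2) :
    ∃ s : Fin n → Bool,
      2 * ∑ i, (if A i then (if s i then m i else 1) else m i / 4) ≤ ∑ i, (m i + 1) + 1 ∧
      2 * ∑ i, (if A i then (if s i then 1 else m i) else m i / 4) ≤ ∑ i, (m i + 1) + 1 := by
  let L : (Σ i : Fin n, Option (Fin (m i))) → Finset ℕ := fun v =>
    if A v.1 then {1, 2} else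
      (match v.2 with
      | none => {3, 4}
      | some l => if l.val % 4 = 0 then {3, 1} else if l.val % 4 = 1 then {3, 2}
        else if l.val % 4 = 2 then {4, 1} else {4, 2})
  have hL : ∀ v, (L v).card = 2 := by
    rintro ⟨i, o⟩
    simp only [L]
    split_ifs
    · rfl
    · cases o with
      | none => rfl
      | some l =>
        simp only
        split_ifs <;> rfl
  obtain ⟨c, hc, hadj, hcount⟩ := h L hL
  have hceil : ∀ a, 2 * (univ.filter fun v => c v = a).card ≤ ∑ i, (m i + 1) + 1 := by
    intro a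
    have h1 := hcount a
    have h2 : ⌈(Fintype.card (Σ i : Fin n, Option (Fin (m i))) : ℚ) / ((2 : ℕ) : ℚ)⌉₊ ≤
        (∑ i, (m i + 1) + 1) / 2 := by
      rw [Nat.ceil_le, card_V, div_le_iff₀ (by norm_num)]
      have h3 : ∑ i, (m i + 1) ≤ (∑ i, (m i + 1) + 1) / 2 * 2 := by omega
      exact_mod_cast h3
    omega
  have hL1 : ∀ i, A i = true → ∀ o, c ⟨i, o⟩ = 1 ∨ c ⟨i, o⟩ = 2 := by
    intro i hi o
    have := hc ⟨i, o⟩
    simp only [L, hi, if_true] at this
    simpa using this
  have hcen : ∀ i, A i = false → c ⟨i, none⟩ = 3 ∨ c ⟨i, none⟩ = 4 := by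
    intro i hi
    have := hc ⟨i, none⟩
    simp only [L, hi] at this
    simpa using this
  have hleaf : ∀ i, A i = false → ∀ l : Fin (m i),
      (l.val % 4 = 0 → c ⟨i, some l⟩ = 3 ∨ c ⟨i, some l⟩ = 1) ∧
      (l.val % 4 = 1 → c ⟨i, some l⟩ = 3 ∨ c ⟨i, some l⟩ = 2) ∧
      (l.val % 4 = 2 → c ⟨i, some l⟩ = 4 ∨ c ⟨i, some l⟩ = 1) ∧
      (l.val % 4 = 3 → c ⟨i, some l⟩ = 4 ∨ c ⟨i, some l⟩ = 2) := by
    intro i hi l
    have := hc ⟨i, some l⟩
    simp only [L, hi] at this
    refine ⟨fun h => ?_, fun h => ?_, fun h => ?_, fun h => ?_⟩ <;>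
      simpa [h] using this
  have hne : ∀ i l, c ⟨i, none⟩ ≠ c ⟨i, some l⟩ := fun i l => hadj _ _ ⟨rfl, Or.inl ⟨rfl, rfl⟩⟩
  have full : ∀ i a, (∀ l, c ⟨i, some l⟩ = a) →
      (univ.filter fun l : Fin (m i) => c ⟨i, some l⟩ = a).card = m i := by
    intro i a h
    rw [Finset.filter_true_of_mem (fun l _ => h l)]
    simp
  have quarter : ∀ i a r, r < 4 → (∀ l : Fin (m i), l.val % 4 = r → c ⟨i, some l⟩ = a) →
      m i / 4 ≤ (univ.filter fun l : Fin (m i) => c ⟨i, some l⟩ = a).card := by
    intro i a r hr h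
    refine (count_mod (m i) r hr).trans (Finset.card_le_card ?_)
    intro l hl
    rw [Finset.mem_filter] at hl ⊢
    exact ⟨hl.1, h l hl.2⟩
  refine ⟨fun i => decide (c ⟨i, none⟩ = 2), ?_, ?_⟩
  · refine le_trans (Nat.mul_le_mul_left 2 ?_) (hceil 1)
    rw [card_filter_sigma]
    apply Finset.sum_le_sum
    intro i _
    cases hA : A i
    · simp only [Bool.false_eq_true, if_false]
      refine le_trans ?_ (Nat.le_add_left _ _)
      rcases hcen i hA with h3 | h4
      · refine quarter i 1 0 (by norm_num) fun l hl => ?_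
        rcases (hleaf i hA l).1 hl with h | h
        · exact absurd (h3.trans h.symm) (hne i l)
        · exact h
      · refine quarter i 1 2 (by norm_num) fun l hl => ?_
        rcases (hleaf i hA l).2.2.1 hl with h | h
        · exact absurd (h4.trans h.symm) (hne i l)
        · exact h
    · simp only [if_true, decide_eq_true_eq]
      split_ifs with h2 h1 h1
      · omega
      · rw [full i 1]
        · omega
        · intro l
          rcases hL1 i hA (some l) with h | h
          · exact h
          · exact absurd (h2.trans h.symm) (hne i l)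
      · omega
      · exfalso
        rcases hL1 i hA none with h | h
        · exact h1 h
        · exact h2 h
  · refine le_trans (Nat.mul_le_mul_left 2 ?_) (hceil 2)
    rw [card_filter_sigma]
    apply Finset.sum_le_sum
    intro i _
    cases hA : A i
    · simp only [Bool.false_eq_true, if_false]
      refine le_trans ?_ (Nat.le_add_left _ _)
      rcases hcen i hA with h3 | h4
      · refine quarter i 2 1 (by norm_num) fun l hl => ?_
        rcases (hleaf i hA l).2.1 hl with h | h
        · exact absurd (h3.trans h.symm) (hne i l)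
        · exact h
      · refine quarter i 2 3 (by norm_num) fun l hl => ?_
        rcases (hleaf i hA l).2.2.2 hl with h | h
        · exact absurd (h4.trans h.symm) (hne i l)
        · exact h
    · simp only [if_true, decide_eq_true_eq]
      split_ifs with h2
      · omega
      · rw [full i 2]
        · omega
        · intro l
          rcases hL1 i hA none with h | h
          · rcases hL1 i hA (some l) with h' | h'
            · exact absurd (h.trans h'.symm) (hne i l)
            · exact h'
          · exact absurd h h2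

theorem finite_two : {m : Fin 2 → ℕ | Monotone m ∧ (∀ i, 1 ≤ m i) ∧
    EquitablyChoosable (starUnion m) 2}.Finite := by
  refine (Set.finite_Iic (fun _ : Fin 2 => 1000)).subset ?_
  rintro m ⟨hm, hpos, h⟩
  have m01 : m 0 ≤ m 1 := hm (by decide)
  obtain ⟨s, h1, h2⟩ := bad m ![false, true] h
  simp [Fin.sum_univ_succ] at h1 h2
  have key : m 1 ≤ 1000 := by
    cases hs : s 1 <;> simp [hs] at h1 h2 <;> omega
  intro i
  fin_cases i
  · exact m01.trans key
  · exact key

theorem finite_three : {m : Fin 3 → ℕ | Monotone m ∧ (∀ i, 1 ≤ m i) ∧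
    EquitablyChoosable (starUnion m) 2}.Finite := by
  refine (Set.finite_Iic (fun _ : Fin 3 => 1000)).subset ?_
  rintro m ⟨hm, hpos, h⟩
  have m01 : m 0 ≤ m 1 := hm (by decide)
  have m12 : m 1 ≤ m 2 := hm (by decide)
  have p0 := hpos 0
  obtain ⟨s, h1, h2⟩ := bad m ![false, false, true] h
  obtain ⟨s', h3, h4⟩ := bad m ![true, true, true] h
  simp [Fin.sum_univ_succ] at h1 h2 h3 h4
  have key : m 2 ≤ 1000 := by
    have k1 : 2 * (m 0 / 4 + (m 1 / 4 + m 2)) ≤ m 0 + m 1 + m 2 + 4 := by
      cases hs : s 2 <;> simp [hs] at h1 h2 <;> omega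
    cases e0 : s' 0 <;> cases e1 : s' 1 <;> cases e2 : s' 2 <;>
      simp [e0, e1, e2] at h3 h4 <;> omega
  intro i
  fin_cases i
  · exact (m01.trans m12).trans key
  · exact m12.trans key
  · exact key

theorem finite_four : {m : Fin 4 → ℕ | Monotone m ∧ (∀ i, 1 ≤ m i) ∧
    EquitablyChoosable (starUnion m) 2}.Finite := by
  refine (Set.finite_Iic (fun _ : Fin 4 => 1000)).subset ?_
  rintro m ⟨hm, hpos, h⟩
  have m01 : m 0 ≤ m 1 := hm (by decide)
  have m12 : m 1 ≤ m 2 := hm (by decide)
  have m23 : m 2 ≤ m 3 := hm (by decide)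
  have p0 := hpos 0
  obtain ⟨s, h1, h2⟩ := bad m ![false, false, false, true] h
  obtain ⟨s', h3, h4⟩ := bad m ![true, true, true, true] h
  obtain ⟨s'', h5, h6⟩ := bad m ![false, true, true, true] h
  simp [Fin.sum_univ_succ] at h1 h2 h3 h4 h5 h6
  have key : m 3 ≤ 1000 := by
    have k1 : 2 * (m 0 / 4 + (m 1 / 4 + (m 2 / 4 + m 3))) ≤ m 0 + m 1 + m 2 + m 3 + 5 := by
      cases hs : s 3 <;> simp [hs] at h1 h2 <;> omega
    -- the smallest star is bounded unless the largest is the sum of the others
    have k2 : m 0 ≤ 50 ∨ m 1 + m 2 + m 0 ≤ m 3 + 20 := by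
      cases e0 : s' 0 <;> cases e1 : s' 1 <;> cases e2 : s' 2 <;> cases e3 : s' 3 <;>
        simp [e0, e1, e2, e3] at h3 h4 <;>
      cases f1 : s'' 1 <;> cases f2 : s'' 2 <;> cases f3 : s'' 3 <;>
        simp [f1, f2, f3] at h5 h6 <;> omega
    cases e0 : s' 0 <;> cases e1 : s' 1 <;> cases e2 : s' 2 <;> cases e3 : s' 3 <;>
      simp [e0, e1, e2, e3] at h3 h4 <;> omega
  intro i
  fin_cases i
  · exact ((m01.trans m12).trans m23).trans key
  · exact (m12.trans m23).trans key
  · exact m23.trans key
  · exact key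

end Q127.EqStar
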