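import Pool.Agent.Q127.EqStar.Base

set_option autoImplicit false

namespace Q127.EqStar.Data

open Finset

variable (D : Data)

/-- the list of the centre of the star `i` is `{c, d}` -/
def Ex (i : Fin 5) (c d : ℕ) : Prop := (D.p i = c ∧ D.q i = d) ∨ (D.p i = d ∧ D.q i = c)

theorem Ex.symm {D : Data} {i : Fin 5} {c d : ℕ} (h : D.Ex i c d) : D.Ex i d c := by
  unfold Ex at *; tauto

theorem Ex.ne {D : Data} {i : Fin 5} {c d : ℕ} (h : D.Ex i c d) : c ≠ d := by
  have := D.hpq i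
  rcases h with ⟨h1, h2⟩ | ⟨h1, h2⟩ <;> subst h1 <;> subst h2
  · exact this
  · exact this.symm

theorem ex_iff (i : Fin 5) (b : Bool) (c d : ℕ) :
    D.Ex i c d ↔ (D.zz i b = c ∧ D.zz i (!b) = d) ∨ (D.zz i b = d ∧ D.zz i (!b) = c) := by
  cases b <;> simp [Ex, zz] <;> tauto

theorem m1 (i : Fin 5) (b : Bool) (c : ℕ) : D.g i b c + D.g i (!b) c ≤ D.y i := by
  have h := D.master i {c}
  have hpq := D.hpq i
  rw [Finset.sum_singleton] at h
  have : ¬ (D.p i ∈ ({c} : Finset ℕ) ∧ D.q i ∈ ({c} : Finset ℕ)) := by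
    simp only [Finset.mem_singleton]
    rintro ⟨h1, h2⟩
    exact hpq (h1.trans h2.symm)
  rw [if_neg this] at h
  cases b <;> simp only [Bool.not_true, Bool.not_false] <;> omega

theorem m2 (i : Fin 5) (b : Bool) (c d : ℕ) (hcd : c ≠ d) (h : ¬ D.Ex i c d) :
    D.g i b c + D.g i (!b) c + D.g i b d + D.g i (!b) d ≤ D.y i := by
  have hm := D.master i {c, d}
  have hpq := D.hpq i
  rw [Finset.sum_pair hcd] at hm
  have : ¬ (D.p i ∈ ({c, d} : Finset ℕ) ∧ D.q i ∈ ({c, d} : Finset ℕ)) := by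
    simp only [Finset.mem_insert, Finset.mem_singleton]
    rintro ⟨h1, h2⟩
    unfold Ex at h
    rcases h1 with h1 | h1 <;> rcases h2 with h2 | h2
    · exact hpq (h1.trans h2.symm)
    · exact h (Or.inl ⟨h1, h2⟩)
    · exact h (Or.inr ⟨h1, h2⟩)
    · exact hpq (h1.trans h2.symm)
  rw [if_neg this] at hm
  cases b <;> simp only [Bool.not_true, Bool.not_false] <;> omega

/-- three colours, two of them are the list -/
theorem m3 (i : Fin 5) (b : Bool) (c d e : ℕ) (h : D.Ex i c d) (hc : e ≠ c) (hd : e ≠ d) :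
    D.a i + D.g i b e + D.g i (!b) e ≤ D.y i := by
  have hcd := h.ne
  have hm := D.master i {c, d, e}
  rw [Finset.sum_insert (by simp [hcd, hc.symm]), Finset.sum_pair hd.symm] at hm
  rw [if_pos (by
    rcases h with ⟨h1, h2⟩ | ⟨h1, h2⟩ <;> simp [h1, h2])] at hm
  have h4 : D.g i false c + D.g i true c = D.a i ∧ D.g i false d + D.g i true d = D.a i := by
    have s0 := D.g_self i false
    have s1 := D.g_self i true
    have o0 := D.g_other i false
    have o1 := D.g_other i true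
    simp only [zz, Bool.not_false, Bool.not_true, if_true, Bool.false_eq_true, if_false] at s0 s1 o0 o1
    rcases h with ⟨h1, h2⟩ | ⟨h1, h2⟩
    · rw [h1] at s0 o1
      rw [h2] at s1 o0
      omega
    · rw [h1] at s0 o1
      rw [h2] at s1 o0
      omega
  cases b <;> simp only [Bool.not_true, Bool.not_false] <;> omega

theorem m4 (i : Fin 5) (b : Bool) (c d e f : ℕ) (h : D.Ex i c d) (hc : e ≠ c) (hd : e ≠ d)
    (hfc : f ≠ c) (hfd : f ≠ d) (hef : e ≠ f) :
    D.a i + (D.g i b e + D.g i (!b) e) + (D.g i b f + D.g i (!b) f) ≤ D.y i := by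
  have hcd := h.ne
  have hm := D.master i {c, d, e, f}
  rw [Finset.sum_insert (by simp [hcd, hc.symm, hfc.symm]),
    Finset.sum_insert (by simp [hd.symm, hfd.symm]), Finset.sum_pair hef] at hm
  rw [if_pos (by
    rcases h with ⟨h1, h2⟩ | ⟨h1, h2⟩ <;> simp [h1, h2])] at hm
  have h4 : D.g i false c + D.g i true c = D.a i ∧ D.g i false d + D.g i true d = D.a i := by
    have s0 := D.g_self i false
    have s1 := D.g_self i true
    have o0 := D.g_other i false
    have o1 := D.g_other i true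
    simp only [zz, Bool.not_false, Bool.not_true, if_true, Bool.false_eq_true, if_false] at s0 s1 o0 o1
    rcases h with ⟨h1, h2⟩ | ⟨h1, h2⟩
    · rw [h1] at s0 o1
      rw [h2] at s1 o0
      omega
    · rw [h1] at s0 o1
      rw [h2] at s1 o0
      omega
  cases b <;> simp only [Bool.not_true, Bool.not_false] <;> omega

/-- values for a star with list `{c, d}` whose centre has colour `c` -/
theorem vals (i : Fin 5) (b : Bool) (c d : ℕ) (h1 : D.zz i b = c) (h2 : D.zz i (!b) = d) :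
    D.g i b c = 0 ∧ D.g i b d = D.a i ∧ D.g i (!b) c = D.a i ∧ D.g i (!b) d = 0 := by
  subst h1
  subst h2
  refine ⟨D.g_self i b, D.g_other i b, ?_, D.g_self i _⟩
  have := D.g_other i (!b)
  rwa [Bool.not_not] at this

theorem B1 (i : Fin 5) (b : Bool) (c d : ℕ) (h : ¬ (D.zz i b = d ∧ D.zz i (!b) = c)) :
    D.g i b c + D.g i (!b) d ≤ D.y i := by
  by_cases hcd : c = d
  · subst hcd
    exact D.m1 i b c
  · by_cases hex : D.Ex i c d
    · rw [D.ex_iff i b] at hex
      rcases hex with ⟨h1, h2⟩ | h'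
      · obtain ⟨e1, -, -, e2⟩ := D.vals i b c d h1 h2
        omega
      · exact absurd h' h
    · have := D.m2 i b c d hcd hex
      omega

theorem tau_ex (i : Fin 5) (b : Bool) (c d : ℕ) (h : D.zz i b = d ∧ D.zz i (!b) = c) :
    D.g i b c + D.g i (!b) d = 2 * D.a i := by
  obtain ⟨-, e1, e2, -⟩ := D.vals i b d c h.1 h.2
  omega

/-- disjoint pairs -/
theorem disj_star (i : Fin 5) (b b' : Bool) (c d c' d' : ℕ) (hcd : c ≠ d) (hcd' : c' ≠ d')
    (h1 : c ≠ c') (h2 : c ≠ d') (h3 : d ≠ c') (h4 : d ≠ d') :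
    D.g i b c + D.g i (!b) d + (D.g i b' c' + D.g i (!b') d') ≤ 2 * D.y i := by
  have ha := D.a_le i
  by_cases hex : D.Ex i c d
  · have hm := D.m4 i b' c d c' d' hex h1.symm h3.symm h2.symm h4.symm hcd'
    rcases (D.ex_iff i b c d).mp hex with ⟨e1, e2⟩ | h'
    · obtain ⟨f1, -, -, f2⟩ := D.vals i b c d e1 e2
      omega
    · have := D.tau_ex i b c d h'
      omega
  · have k1 : D.g i b c + D.g i (!b) d ≤ D.y i := by
      have := D.m2 i b c d hcd hex
      omega
    by_cases hex' : D.Ex i c' d'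
    · have hm := D.m4 i b c' d' c d hex' h1 h2 h3 h4 hcd
      rcases (D.ex_iff i b' c' d').mp hex' with ⟨e1, e2⟩ | h'
      · obtain ⟨f1, -, -, f2⟩ := D.vals i b' c' d' e1 e2
        omega
      · have := D.tau_ex i b' c' d' h'
        omega
    · have := D.m2 i b' c' d' hcd' hex'
      omega

/-- pairs `{x1,x2}` and `{x1,x3}` -/
theorem share_star (i : Fin 5) (b b' : Bool) (x1 x2 x3 : ℕ) (h12 : x1 ≠ x2) (h13 : x1 ≠ x3)
    (h23 : x2 ≠ x3)
    (hA : ¬ (D.Ex i x1 x2 ∧ D.zz i b = x2 ∧ D.zz i b' = x2))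
    (hB : ¬ (D.Ex i x1 x3 ∧ D.zz i b = x3 ∧ D.zz i b' = x3)) :
    D.g i b x1 + D.g i (!b) x2 + (D.g i b' x1 + D.g i (!b') x3) ≤ 2 * D.y i := by
  have ha := D.a_le i
  by_cases hex : D.Ex i x1 x2
  · have hm := D.m3 i b' x1 x2 x3 hex h13.symm h23.symm
    have hnot : ¬ D.Ex i x1 x3 := by
      unfold Ex at *
      rintro (⟨k1, k2⟩ | ⟨k1, k2⟩) <;> rcases hex with ⟨k3, k4⟩ | ⟨k3, k4⟩ <;> omega
    have k2 : D.g i b' x1 + D.g i (!b') x3 ≤ D.y i := by
      have := D.m2 i b' x1 x3 h13 hnot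
      omega
    rcases (D.ex_iff i b x1 x2).mp hex with ⟨e1, e2⟩ | ⟨e1, e2⟩
    · obtain ⟨f1, -, -, f2⟩ := D.vals i b x1 x2 e1 e2
      omega
    · have ht := D.tau_ex i b x1 x2 ⟨e1, e2⟩
      have hb' : D.zz i b' = x1 := by
        rcases (D.ex_iff i b' x1 x2).mp hex with ⟨e3, e4⟩ | ⟨e3, e4⟩
        · exact e3
        · exact absurd ⟨hex, e1, e3⟩ hA
      have : D.g i b' x1 = 0 := by rw [← hb']; exact D.g_self i b'
      omega
  · have k1 : D.g i b x1 + D.g i (!b) x2 ≤ D.y i := by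
      have := D.m2 i b x1 x2 h12 hex
      omega
    by_cases hex' : D.Ex i x1 x3
    · have hm := D.m3 i b x1 x3 x2 hex' h12.symm h23
      rcases (D.ex_iff i b' x1 x3).mp hex' with ⟨e1, e2⟩ | ⟨e1, e2⟩
      · obtain ⟨f1, -, -, f2⟩ := D.vals i b' x1 x3 e1 e2
        omega
      · have ht := D.tau_ex i b' x1 x3 ⟨e1, e2⟩
        have hb : D.zz i b = x1 := by
          rcases (D.ex_iff i b x1 x3).mp hex' with ⟨e3, e4⟩ | ⟨e3, e4⟩
          · exact e3
          · exact absurd ⟨hex', e3, e1⟩ hB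
        have : D.g i b x1 = 0 := by rw [← hb]; exact D.g_self i b
        omega
    · have := D.m2 i b' x1 x3 h13 hex'
      omega

/-- the antipodal state -/
def fl (s : Fin 5 → Bool) : Fin 5 → Bool := fun i => !s i

theorem fl_fl (s : Fin 5 → Bool) : fl (fl s) = s := by
  funext i; simp [fl]

/-- `c` is overloaded at `s` and `d` at the antipode -/
def Bd (s : Fin 5 → Bool) (c d : ℕ) : Prop :=
  6 * D.t < D.load s c ∧ 6 * D.t < D.load (fl s) d

theorem Bd.fl {D : Data} {s : Fin 5 → Bool} {c d : ℕ} (h : D.Bd s c d) : D.Bd (fl s) d c := by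
  refine ⟨h.2, ?_⟩
  rw [fl_fl]
  exact h.1

theorem disj_false (s s' : Fin 5 → Bool) (c d c' d' : ℕ) (hcd : c ≠ d) (hcd' : c' ≠ d')
    (h1 : c ≠ c') (h2 : c ≠ d') (h3 : d ≠ c') (h4 : d ≠ d')
    (hb : D.Bd s c d) (hb' : D.Bd s' c' d') : False := by
  have key : D.load s c + D.load (fl s) d + (D.load s' c' + D.load (fl s') d') ≤
      2 * ∑ i, D.y i := by
    unfold load
    rw [← Finset.sum_add_distrib, ← Finset.sum_add_distrib, ← Finset.sum_add_distrib,
      Finset.mul_sum]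
    exact Finset.sum_le_sum fun i _ => D.disj_star i (s i) (s' i) c d c' d' hcd hcd' h1 h2 h3 h4
  rw [D.sum_y] at key
  obtain ⟨k1, k2⟩ := hb
  obtain ⟨k3, k4⟩ := hb'
  omega

theorem share_false (s s' : Fin 5 → Bool) (x1 x2 x3 : ℕ) (h12 : x1 ≠ x2) (h13 : x1 ≠ x3)
    (h23 : x2 ≠ x3)
    (hA : ∀ i, ¬ (D.Ex i x1 x2 ∧ D.zz i (s i) = x2 ∧ D.zz i (s' i) = x2))
    (hB : ∀ i, ¬ (D.Ex i x1 x3 ∧ D.zz i (s i) = x3 ∧ D.zz i (s' i) = x3))
    (hb : D.Bd s x1 x2) (hb' : D.Bd s' x1 x3) : False := by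
  have key : D.load s x1 + D.load (fl s) x2 + (D.load s' x1 + D.load (fl s') x3) ≤
      2 * ∑ i, D.y i := by
    unfold load
    rw [← Finset.sum_add_distrib, ← Finset.sum_add_distrib, ← Finset.sum_add_distrib,
      Finset.mul_sum]
    exact Finset.sum_le_sum fun i _ => D.share_star i (s i) (s' i) x1 x2 x3 h12 h13 h23 (hA i) (hB i)
  rw [D.sum_y] at key
  obtain ⟨k1, k2⟩ := hb
  obtain ⟨k3, k4⟩ := hb'
  omega

/-- weight of a set of stars -/
def W (S : Finset (Fin 5)) : ℕ := ∑ i ∈ S, wt i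

/-- The pair lemma: strictly more than half of the weight of the stars with list `{c, d}` is on
the right side. -/
theorem pair_lemma (s : Fin 5 → Bool) (c d : ℕ) (hb : D.Bd s c d) :
    c ≠ d ∧ W (univ.filter fun i => D.zz i (s i) = c ∧ D.zz i (!s i) = d) <
      W (univ.filter fun i => D.zz i (s i) = d ∧ D.zz i (!s i) = c) := by
  classical
  have hcd : c ≠ d := by
    rintro rfl
    have key : D.load s c + D.load (fl s) c ≤ ∑ i, D.y i := by
      unfold load
      rw [← Finset.sum_add_distrib]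
      exact Finset.sum_le_sum fun i _ => D.m1 i (s i) c
    rw [D.sum_y] at key
    obtain ⟨k1, k2⟩ := hb
    omega
  refine ⟨hcd, ?_⟩
  have key : D.load s c + D.load (fl s) d +
      ∑ i, (if D.zz i (s i) = c ∧ D.zz i (!s i) = d then D.y i else 0) ≤
      ∑ i, D.y i + ∑ i, (if D.zz i (s i) = d ∧ D.zz i (!s i) = c then D.y i else 0) := by
    unfold load
    rw [← Finset.sum_add_distrib, ← Finset.sum_add_distrib, ← Finset.sum_add_distrib]
    apply Finset.sum_le_sum
    intro i _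
    have ha := D.a_le i
    by_cases h1 : D.zz i (s i) = d ∧ D.zz i (!s i) = c
    · have h2 : ¬ (D.zz i (s i) = c ∧ D.zz i (!s i) = d) := by
        rintro ⟨k1, -⟩
        exact hcd (k1.symm.trans h1.1)
      rw [if_pos h1, if_neg h2]
      have := D.tau_ex i (s i) c d h1
      simp only [fl]
      omega
    · rw [if_neg h1]
      by_cases h2 : D.zz i (s i) = c ∧ D.zz i (!s i) = d
      · rw [if_pos h2]
        obtain ⟨f1, -, -, f2⟩ := D.vals i (s i) c d h2.1 h2.2
        simp only [fl]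
        omega
      · rw [if_neg h2]
        have := D.B1 i (s i) c d h1
        simp only [fl]
        omega
  rw [D.sum_y, ← Finset.sum_filter, ← Finset.sum_filter] at key
  have e1 : ∀ S : Finset (Fin 5), ∑ i ∈ S, D.y i = W S * D.t := by
    intro S
    simp only [y, W, Finset.sum_mul]
  rw [e1, e1] at key
  obtain ⟨k1, k2⟩ := hb
  have : W (univ.filter fun i => D.zz i (s i) = c ∧ D.zz i (!s i) = d) * D.t <
      W (univ.filter fun i => D.zz i (s i) = d ∧ D.zz i (!s i) = c) * D.t := by omega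
  exact Nat.lt_of_mul_lt_mul_right this

end Q127.EqStar.Data
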