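import Pool.Agent.Q127.EqStar.Star1

set_option autoImplicit false

namespace Q127.EqStar.Data

open Finset

variable (D : Data) (x : ℕ)

theorem W_union_le : ∀ S T : Finset (Fin 5), Disjoint S T → W S + W T ≤ 12 := by
  unfold W wt; decide +kernel

theorem W_mono : ∀ S T : Finset (Fin 5), S ⊆ T → W S ≤ W T := by
  unfold W wt; decide +kernel

/-- the unused mass for the colour `x` -/
def u (i : Fin 5) : ℕ := D.y i - (D.g i false x + D.g i true x)

theorem u_spec (i : Fin 5) (b : Bool) : D.g i b x + D.g i (!b) x + D.u x i = D.y i := by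
  have := D.m1 i false x
  simp only [Bool.not_false] at this
  unfold u
  cases b <;> simp only [Bool.not_true, Bool.not_false] <;> omega

def U : ℕ := ∑ i, D.u x i

theorem load_add (s : Fin 5 → Bool) : D.load s x + D.load (fl s) x + D.U x = 12 * D.t := by
  unfold load U
  rw [← Finset.sum_add_distrib, ← Finset.sum_add_distrib, ← D.sum_y]
  exact Finset.sum_congr rfl fun i _ => D.u_spec x i (s i)

/-- the stars whose centre has `x` in its list -/
def E1 (i : Fin 5) : Prop := D.p i = x ∨ D.q i = x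

instance (i : Fin 5) : Decidable (D.E1 x i) := by unfold E1; infer_instance

instance (i : Fin 5) (c d : ℕ) : Decidable (D.Ex i c d) := by unfold Ex; infer_instance

def bx (i : Fin 5) : Bool := decide (D.q i = x)

theorem zz_bx (i : Fin 5) (h : D.E1 x i) : D.zz i (D.bx x i) = x := by
  unfold zz bx
  rcases h with h | h
  · have := D.hpq i
    by_cases hq : D.q i = x
    · simp [hq]
    · simp [hq, h]
  · simp [h]

def K (k : ℕ) : Finset (Fin 5) := univ.filter fun i => D.Ex i x k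

theorem K_disj (k k' : ℕ) (h : k ≠ k') : Disjoint (D.K x k) (D.K x k') := by
  rw [Finset.disjoint_left]
  intro i h1 h2
  rw [K, Finset.mem_filter] at h1 h2
  have h3 := h1.2
  have h4 := h2.2
  unfold Ex at h3 h4
  have h5 := D.hpq i
  rcases h3 with ⟨k1, k2⟩ | ⟨k1, k2⟩ <;> rcases h4 with ⟨k3, k4⟩ | ⟨k3, k4⟩
  · exact h (k2.symm.trans k4)
  · exact h5 (k1.trans k4.symm)
  · exact h5 (k3.trans k2.symm)
  · exact h (k1.symm.trans k3)

theorem Ex.E1 {D : Data} {x k : ℕ} {i : Fin 5} (h : D.Ex i x k) : D.E1 x i := by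
  unfold Ex at h; unfold Data.E1; tauto

def stZ (Z : Finset (Fin 5)) (r : Fin 5 → Bool) : Fin 5 → Bool :=
  fun i => if D.E1 x i then (if i ∈ Z then D.bx x i else !D.bx x i) else r i

theorem fl_stZ (Z : Finset (Fin 5)) (r : Fin 5 → Bool) :
    fl (D.stZ x Z r) = D.stZ x Zᶜ (fl r) := by
  funext i
  simp only [fl, stZ, Finset.mem_compl]
  split_ifs <;> simp_all

theorem zz_stZ_mem (Z : Finset (Fin 5)) (r : Fin 5 → Bool) (i : Fin 5) (k : ℕ)
    (h : D.Ex i x k) (hi : i ∈ Z) :
    D.zz i (D.stZ x Z r i) = x ∧ D.zz i (!D.stZ x Z r i) = k := by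
  have h1 : D.stZ x Z r i = D.bx x i := by simp [stZ, h.E1, hi]
  rw [h1]
  have h2 := D.zz_bx x i h.E1
  refine ⟨h2, ?_⟩
  have hne := h.ne
  rcases (D.ex_iff i (D.bx x i) x k).mp h with h3 | h3
  · exact h3.2
  · exact absurd (h2.symm.trans h3.1) hne

theorem zz_stZ_not_mem (Z : Finset (Fin 5)) (r : Fin 5 → Bool) (i : Fin 5) (k : ℕ)
    (h : D.Ex i x k) (hi : i ∉ Z) :
    D.zz i (D.stZ x Z r i) = k ∧ D.zz i (!D.stZ x Z r i) = x := by
  have h1 : D.stZ x Z r i = !D.bx x i := by simp [stZ, h.E1, hi]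
  rw [h1, Bool.not_not]
  have h2 := D.zz_bx x i h.E1
  have hne := h.ne
  rcases (D.ex_iff i (D.bx x i) x k).mp h with h3 | h3
  · exact ⟨h3.2, h3.1⟩
  · exact absurd (h2.symm.trans h3.1) hne

theorem g_le_u (i : Fin 5) (b : Bool) (k : ℕ) (hk : k ≠ x) (h : ¬ D.Ex i x k) :
    D.g i b k + D.g i (!b) k ≤ D.u x i := by
  have h1 := D.m2 i b x k hk.symm h
  have h2 := D.u_spec x i b
  omega

theorem load_stZ_le (Z : Finset (Fin 5)) (r : Fin 5 → Bool) (k : ℕ) (hk : k ≠ x) :
    D.load (D.stZ x Z r) k ≤ W (D.K x k ∩ Z) * D.t + D.U x := by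
  have e1 : W (D.K x k ∩ Z) * D.t = ∑ i, if i ∈ D.K x k ∩ Z then D.y i else 0 := by
    rw [← Finset.sum_filter]
    simp only [W, Finset.sum_mul, y]
    apply Finset.sum_congr _ (fun _ _ => rfl)
    ext i; simp
  rw [e1]
  unfold load U
  rw [← Finset.sum_add_distrib]
  apply Finset.sum_le_sum
  intro i _
  have ha := D.a_le i
  by_cases hex : D.Ex i x k
  · have hK : i ∈ D.K x k := by simp [K, hex]
    by_cases hi : i ∈ Z
    · rw [if_pos (Finset.mem_inter.mpr ⟨hK, hi⟩)]
      obtain ⟨h1, h2⟩ := D.zz_stZ_mem x Z r i k hex hi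
      obtain ⟨-, h3, -, -⟩ := D.vals i _ x k h1 h2
      omega
    · obtain ⟨h1, h2⟩ := D.zz_stZ_not_mem x Z r i k hex hi
      obtain ⟨h3, -, -, -⟩ := D.vals i _ k x h1 h2
      omega
  · have := D.g_le_u x i (D.stZ x Z r i) k hk hex
    omega

/-- the hypothesis of the star case -/
def SC : Prop := ∀ s : Fin 5 → Bool,
  (∃ k, k ≠ x ∧ D.Bd s x k) ∨ (∃ k, k ≠ x ∧ D.Bd s k x)

variable {D x}

theorem SC.H (h : D.SC x) (Z : Finset (Fin 5)) :
    ∃ k, k ≠ x ∧ (6 * D.t < W (D.K x k ∩ Z) * D.t + D.U x ∨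
      6 * D.t < W (D.K x k ∩ Zᶜ) * D.t + D.U x) := by
  rcases h (D.stZ x Z fun _ => false) with ⟨k, hk, hb⟩ | ⟨k, hk, hb⟩
  · refine ⟨k, hk, Or.inr ?_⟩
    have := hb.2
    rw [fl_stZ] at this
    exact lt_of_lt_of_le this (D.load_stZ_le x _ _ k hk)
  · refine ⟨k, hk, Or.inl ?_⟩
    exact lt_of_lt_of_le hb.1 (D.load_stZ_le x _ _ k hk)

theorem SC.tpos (h : D.SC x) : 0 < D.t := by
  rcases h (fun _ => false) with ⟨k, hk, hb⟩ | ⟨k, hk, hb⟩
  · have h1 := hb.1
    have h2 := D.load_add x fun _ => false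
    omega
  · have h1 := hb.2
    have h2 := D.load_add x fun _ => false
    omega

/-! ### the step `U < 2 t` -/

theorem red (v w u : ℤ) (h1 : u < |v + w|) (h2 : u < |v - w|) (hw : |w| ≤ u) : u < |v| := by
  rw [lt_abs] at *
  rw [abs_le] at hw
  omega

/-- the difference of the two values -/
noncomputable def w (D : Data) (x : ℕ) (i : Fin 5) : ℤ :=
  |(D.g i true x : ℤ) - D.g i false x|

theorem w_nonneg (i : Fin 5) : 0 ≤ w D x i := abs_nonneg _

theorem w_le (i : Fin 5) : w D x i ≤ D.y i := by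
  have := D.u_spec x i false
  simp only [Bool.not_false] at this
  unfold w
  rw [abs_le]
  omega

theorem w_E1 (i : Fin 5) (h : D.E1 x i) : w D x i + D.u x i = D.y i := by
  have h1 := D.u_spec x i false
  simp only [Bool.not_false] at h1
  have h2 := D.zz_bx x i h
  have h3 := D.g_self i (D.bx x i)
  rw [h2] at h3
  unfold w
  cases hb : D.bx x i
  · rw [hb] at h3
    rw [h3] at h1 ⊢
    rw [abs_of_nonneg (by simp)]
    push_cast
    omega
  · rw [hb] at h3
    rw [h3] at h1 ⊢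
    rw [abs_of_nonpos (by simp)]
    push_cast
    omega

/-- signed sums -/
noncomputable def sg (D : Data) (x : ℕ) (σ : Fin 5 → Bool) : ℤ :=
  ∑ i, if σ i then w D x i else -w D x i

theorem SC.sg (h : D.SC x) (σ : Fin 5 → Bool) : (D.U x : ℤ) < |sg D x σ| := by
  classical
  -- the bit with the larger value
  let hi : Fin 5 → Bool := fun i => decide (D.g i false x ≤ D.g i true x)
  let s : Fin 5 → Bool := fun i => if σ i then hi i else !hi i
  have e : (D.load s x : ℤ) - D.load (fl s) x = Data.sg D x σ := by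
    unfold load Data.sg
    push_cast
    rw [← Finset.sum_sub_distrib]
    apply Finset.sum_congr rfl
    intro i _
    simp only [s, fl, hi, w]
    by_cases hc : D.g i false x ≤ D.g i true x
    · rw [abs_of_nonneg (by omega)]
      cases σ i <;> simp [hc]
    · rw [abs_of_nonpos (by omega)]
      cases σ i <;> simp [hc]
  have h2 := D.load_add x s
  rw [← e, lt_abs]
  rcases h s with ⟨k, hk, hb⟩ | ⟨k, hk, hb⟩
  · have := hb.1
    left
    omega
  · have := hb.2
    right
    omega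

theorem y_vals : D.y 0 = 2 * D.t ∧ D.y 1 = 2 * D.t ∧ D.y 2 = 2 * D.t ∧ D.y 3 = 3 * D.t ∧
    D.y 4 = 3 * D.t := by
  simp [y, wt]

theorem U_vals : D.U x = D.u x 0 + D.u x 1 + D.u x 2 + D.u x 3 + D.u x 4 := by
  simp [U, Fin.sum_univ_five]

theorem sg_vals (b0 b1 b2 b3 b4 : Bool) :
    sg D x ![b0, b1, b2, b3, b4] =
      (if b0 then w D x 0 else -w D x 0) + (if b1 then w D x 1 else -w D x 1) +
      (if b2 then w D x 2 else -w D x 2) + (if b3 then w D x 3 else -w D x 3) +
      (if b4 then w D x 4 else -w D x 4) := by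
  rw [sg, Fin.sum_univ_five]
  rfl

end Q127.EqStar.Data
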