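import Pool.Agent.Q127.EqStar.Star2

set_option autoImplicit false

namespace Q127.EqStar.Data

open Finset

variable {D : Data} {x : ℕ}

theorem W_three : ∀ S : Finset (Fin 5), S ⊆ {0, 1, 2} → 4 ≤ W S →
    (0 ∈ S ∧ 1 ∈ S) ∨ (0 ∈ S ∧ 2 ∈ S) ∨ (1 ∈ S ∧ 2 ∈ S) := by
  unfold W wt; decide +kernel

theorem W_singleton : ∀ (S : Finset (Fin 5)) (α : Fin 5), W (S ∩ {α}) ≤ 3 := by
  unfold W wt; decide +kernel

theorem mem_K {k : ℕ} {i : Fin 5} : i ∈ D.K x k ↔ D.Ex i x k := by
  simp [K]

theorem claim1_aux (h : D.SC x) (hU : 2 * D.t ≤ D.U x) (α β : Fin 5)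
    (hαβ : (α = 3 ∧ β = 4) ∨ (α = 4 ∧ β = 3)) (hv : (D.U x : ℤ) < w D x α - w D x β)
    (h01 : (D.U x : ℤ) < |w D x α - w D x β - w D x 0 - w D x 1|)
    (h02 : (D.U x : ℤ) < |w D x α - w D x β - w D x 0 - w D x 2|)
    (h12 : (D.U x : ℤ) < |w D x α - w D x β - w D x 1 - w D x 2|) : False := by
  obtain ⟨y0, y1, y2, y3, y4⟩ := D.y_vals
  have hyα : D.y α = 3 * D.t := by rcases hαβ with ⟨rfl, rfl⟩ | ⟨rfl, rfl⟩ <;> assumption
  have hyβ : D.y β = 3 * D.t := by rcases hαβ with ⟨rfl, rfl⟩ | ⟨rfl, rfl⟩ <;> assumption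
  have wα := w_le (D := D) (x := x) α
  have wβ := w_nonneg (D := D) (x := x) β
  have hUv := U_vals (D := D) (x := x)
  have uβ : D.u x β ≤ D.U x := by
    rcases hαβ with ⟨rfl, rfl⟩ | ⟨rfl, rfl⟩ <;> omega
  rw [hyα] at wα
  have hβ : ¬ D.E1 x β := by
    intro hE
    have := w_E1 (D := D) (x := x) β hE
    rw [hyβ] at this
    push_cast at *
    omega
  obtain ⟨k, hk, hk2⟩ := h.H {α}
  push_cast at wα
  rcases hk2 with hk2 | hk2
  · have h3 := W_singleton (D.K x k) α
    have : W (D.K x k ∩ {α}) * D.t ≤ 3 * D.t := Nat.mul_le_mul_right _ h3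
    omega
  · have hsub : D.K x k ∩ {α}ᶜ ⊆ {0, 1, 2} := by
      intro i hi
      rw [Finset.mem_inter, Finset.mem_compl, Finset.mem_singleton, mem_K] at hi
      have hi1 : i ≠ β := by
        rintro rfl
        exact hβ hi.1.E1
      rcases hαβ with ⟨rfl, rfl⟩ | ⟨rfl, rfl⟩
      · have := hi.2
        fin_cases i <;> simp_all
      · have := hi.2
        fin_cases i <;> simp_all
    have h4 : 4 ≤ W (D.K x k ∩ {α}ᶜ) := by
      by_contra hlt
      have h3 : W (D.K x k ∩ {α}ᶜ) ≤ 3 := by omega
      have : W (D.K x k ∩ {α}ᶜ) * D.t ≤ 3 * D.t := Nat.mul_le_mul_right _ h3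
      omega
    have key : ∀ i ∈ D.K x k ∩ {α}ᶜ, w D x i + D.u x i = D.y i := by
      intro i hi
      rw [Finset.mem_inter, mem_K] at hi
      exact w_E1 i hi.1.E1
    rcases W_three _ hsub h4 with ⟨ha, hb⟩ | ⟨ha, hb⟩ | ⟨ha, hb⟩
    · have e1 := key _ ha
      have e2 := key _ hb
      rw [lt_abs] at h01
      omega
    · have e1 := key _ ha
      have e2 := key _ hb
      rw [lt_abs] at h02
      omega
    · have e1 := key _ ha
      have e2 := key _ hb
      rw [lt_abs] at h12
      omega

theorem claim1 (h : D.SC x) : D.U x < 2 * D.t := by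
  by_contra hU
  push Not at hU
  obtain ⟨y0, y1, y2, y3, y4⟩ := D.y_vals
  have w0 := w_le (D := D) (x := x) 0
  have w1 := w_le (D := D) (x := x) 1
  have w2 := w_le (D := D) (x := x) 2
  have n0 := w_nonneg (D := D) (x := x) 0
  have n1 := w_nonneg (D := D) (x := x) 1
  have n2 := w_nonneg (D := D) (x := x) 2
  rw [y0] at w0
  rw [y1] at w1
  rw [y2] at w2
  have a0 : |w D x 0| ≤ (D.U x : ℤ) := by rw [abs_le]; push_cast at *; omega
  have a1 : |w D x 1| ≤ (D.U x : ℤ) := by rw [abs_le]; push_cast at *; omega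
  have a2 : |w D x 2| ≤ (D.U x : ℤ) := by rw [abs_le]; push_cast at *; omega
  have A : ∀ b0 b1 b2 b3 b4 : Bool, (D.U x : ℤ) < |(if b0 then w D x 0 else -w D x 0) +
      (if b1 then w D x 1 else -w D x 1) +
      (if b2 then w D x 2 else -w D x 2) + (if b3 then w D x 3 else -w D x 3) +
      (if b4 then w D x 4 else -w D x 4)| := by
    intro b0 b1 b2 b3 b4
    rw [← sg_vals]
    exact h.sg _
  -- remove star 2
  have B01 : ∀ b0 b1 b3 b4 : Bool, (D.U x : ℤ) < |(if b0 then w D x 0 else -w D x 0) +
      (if b1 then w D x 1 else -w D x 1) + (if b3 then w D x 3 else -w D x 3) +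
      (if b4 then w D x 4 else -w D x 4)| := by
    intro b0 b1 b3 b4
    refine red _ (w D x 2) _ ?_ ?_ a2
    · have := A b0 b1 true b3 b4
      simp only [if_true] at this
      convert this using 2
      ring
    · have := A b0 b1 false b3 b4
      simp only [Bool.false_eq_true, if_false] at this
      convert this using 2
      ring
  have B02 : ∀ b0 b2 b3 b4 : Bool, (D.U x : ℤ) < |(if b0 then w D x 0 else -w D x 0) +
      (if b2 then w D x 2 else -w D x 2) + (if b3 then w D x 3 else -w D x 3) +
      (if b4 then w D x 4 else -w D x 4)| := by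
    intro b0 b2 b3 b4
    refine red _ (w D x 1) _ ?_ ?_ a1
    · have := A b0 true b2 b3 b4
      simp only [if_true] at this
      convert this using 2
      ring
    · have := A b0 false b2 b3 b4
      simp only [Bool.false_eq_true, if_false] at this
      convert this using 2
      ring
  have B12 : ∀ b1 b2 b3 b4 : Bool, (D.U x : ℤ) < |(if b1 then w D x 1 else -w D x 1) +
      (if b2 then w D x 2 else -w D x 2) + (if b3 then w D x 3 else -w D x 3) +
      (if b4 then w D x 4 else -w D x 4)| := by
    intro b1 b2 b3 b4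
    refine red _ (w D x 0) _ ?_ ?_ a0
    · have := A true b1 b2 b3 b4
      simp only [if_true] at this
      convert this using 2
      ring
    · have := A false b1 b2 b3 b4
      simp only [Bool.false_eq_true, if_false] at this
      convert this using 2
      ring
  have B0 : ∀ b0 b3 b4 : Bool, (D.U x : ℤ) < |(if b0 then w D x 0 else -w D x 0) +
      (if b3 then w D x 3 else -w D x 3) + (if b4 then w D x 4 else -w D x 4)| := by
    intro b0 b3 b4
    refine red _ (w D x 1) _ ?_ ?_ a1
    · have := B01 b0 true b3 b4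
      simp only [if_true] at this
      convert this using 2
      ring
    · have := B01 b0 false b3 b4
      simp only [Bool.false_eq_true, if_false] at this
      convert this using 2
      ring
  have Bn : ∀ b3 b4 : Bool, (D.U x : ℤ) < |(if b3 then w D x 3 else -w D x 3) +
      (if b4 then w D x 4 else -w D x 4)| := by
    intro b3 b4
    refine red _ (w D x 0) _ ?_ ?_ a0
    · have := B0 true b3 b4
      simp only [if_true] at this
      convert this using 2
      ring
    · have := B0 false b3 b4
      simp only [Bool.false_eq_true, if_false] at this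
      convert this using 2
      ring
  have hC := Bn true false
  simp only [if_true, Bool.false_eq_true, if_false] at hC
  rw [lt_abs] at hC
  rcases hC with hC | hC
  · refine claim1_aux h hU 3 4 (Or.inl ⟨rfl, rfl⟩) (by omega) ?_ ?_ ?_
    · have := B01 false false true false
      simp only [if_true, Bool.false_eq_true, if_false] at this
      convert this using 2
      ring
    · have := B02 false false true false
      simp only [if_true, Bool.false_eq_true, if_false] at this
      convert this using 2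
      ring
    · have := B12 false false true false
      simp only [if_true, Bool.false_eq_true, if_false] at this
      convert this using 2
      ring
  · refine claim1_aux h hU 4 3 (Or.inr ⟨rfl, rfl⟩) (by omega) ?_ ?_ ?_
    · have := B01 false false false true
      simp only [if_true, Bool.false_eq_true, if_false] at this
      convert this using 2
      ring
    · have := B02 false false false true
      simp only [if_true, Bool.false_eq_true, if_false] at this
      convert this using 2
      ring
    · have := B12 false false false true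
      simp only [if_true, Bool.false_eq_true, if_false] at this
      convert this using 2
      ring

theorem W_of_lt (h : D.SC x) (m : ℕ) (hm : 6 * D.t < m * D.t + D.U x) : 5 ≤ m := by
  have hU := claim1 h
  by_contra hlt
  have h4 : m ≤ 4 := by omega
  have := Nat.mul_le_mul_right D.t h4
  omega

theorem half_exists : ∀ K : Finset (Fin 5), W K ≤ 7 → ∃ X, X ⊆ K ∧ W X ≤ 4 ∧ W (K \ X) ≤ 4 := by
  unfold W wt; decide +kernel

theorem W_three_disj : ∀ A B C : Finset (Fin 5), Disjoint A B → Disjoint A C → Disjoint B C →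
    W A + W B + W C ≤ 12 := by
  intro A B C hAB hAC hBC
  have h1 : W (A ∪ B) = W A + W B := by
    unfold W
    exact Finset.sum_union hAB
  have h2 := W_union_le (A ∪ B) C (Finset.disjoint_union_left.mpr ⟨hAC, hBC⟩)
  omega

theorem exists_big (h : D.SC x) : ∃ k0, k0 ≠ x ∧ 8 ≤ W (D.K x k0) := by
  by_contra hno
  push Not at hno
  have hno' : ∀ k, k ≠ x → W (D.K x k) ≤ 7 := fun k hk => by
    have := hno k hk
    omega
  -- first class
  obtain ⟨k1, hk1, h1⟩ := h.H ∅
  have w1 : 5 ≤ W (D.K x k1) := by
    rcases h1 with h1 | h1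
    · exact (W_of_lt h _ h1).trans (W_mono _ _ Finset.inter_subset_left)
    · exact (W_of_lt h _ h1).trans (W_mono _ _ Finset.inter_subset_left)
  obtain ⟨X1, hX1, hX1a, hX1b⟩ := half_exists _ (hno' k1 hk1)
  obtain ⟨k2, hk2, h2⟩ := h.H X1
  have w2 : 5 ≤ W (D.K x k2) := by
    rcases h2 with h2 | h2
    · exact (W_of_lt h _ h2).trans (W_mono _ _ Finset.inter_subset_left)
    · exact (W_of_lt h _ h2).trans (W_mono _ _ Finset.inter_subset_left)
  have hk12 : k1 ≠ k2 := by
    rintro rfl
    rcases h2 with h2 | h2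
    · have := W_of_lt h _ h2
      have := W_mono (D.K x k1 ∩ X1) X1 Finset.inter_subset_right
      omega
    · have := W_of_lt h _ h2
      have e : D.K x k1 ∩ X1ᶜ = D.K x k1 \ X1 := by ext i; simp
      rw [e] at this
      omega
  have d12 := D.K_disj x k1 k2 hk12
  obtain ⟨X2, hX2, hX2a, hX2b⟩ := half_exists _ (hno' k2 hk2)
  obtain ⟨k3, hk3, h3⟩ := h.H (X1 ∪ X2)
  have w3 : 5 ≤ W (D.K x k3) := by
    rcases h3 with h3 | h3
    · exact (W_of_lt h _ h3).trans (W_mono _ _ Finset.inter_subset_left)
    · exact (W_of_lt h _ h3).trans (W_mono _ _ Finset.inter_subset_left)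
  have hk13 : k1 ≠ k3 := by
    rintro rfl
    rcases h3 with h3 | h3
    · have h5 := W_of_lt h _ h3
      have : D.K x k1 ∩ (X1 ∪ X2) ⊆ X1 := by
        intro i hi
        rw [Finset.mem_inter, Finset.mem_union] at hi
        rcases hi.2 with hi2 | hi2
        · exact hi2
        · exact absurd (hX2 hi2) (Finset.disjoint_left.mp d12 hi.1)
      have := W_mono _ _ this
      omega
    · have h5 := W_of_lt h _ h3
      have : D.K x k1 ∩ (X1 ∪ X2)ᶜ ⊆ D.K x k1 \ X1 := by
        intro i hi
        rw [Finset.mem_inter, Finset.mem_compl, Finset.mem_union] at hi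
        rw [Finset.mem_sdiff]
        exact ⟨hi.1, fun h => hi.2 (Or.inl h)⟩
      have := W_mono _ _ this
      omega
  have hk23 : k2 ≠ k3 := by
    rintro rfl
    rcases h3 with h3 | h3
    · have h5 := W_of_lt h _ h3
      have : D.K x k2 ∩ (X1 ∪ X2) ⊆ X2 := by
        intro i hi
        rw [Finset.mem_inter, Finset.mem_union] at hi
        rcases hi.2 with hi2 | hi2
        · exact absurd hi.1 (Finset.disjoint_left.mp d12 (hX1 hi2))
        · exact hi2
      have := W_mono _ _ this
      omega
    · have h5 := W_of_lt h _ h3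
      have : D.K x k2 ∩ (X1 ∪ X2)ᶜ ⊆ D.K x k2 \ X2 := by
        intro i hi
        rw [Finset.mem_inter, Finset.mem_compl, Finset.mem_union] at hi
        rw [Finset.mem_sdiff]
        exact ⟨hi.1, fun h => hi.2 (Or.inr h)⟩
      have := W_mono _ _ this
      omega
  have := W_three_disj _ _ _ d12 (D.K_disj x k1 k3 hk13) (D.K_disj x k2 k3 hk23)
  omega

theorem split_big : ∀ K : Finset (Fin 5), 8 ≤ W K →
    (10 ≤ W K ∧ ∃ X, X ⊆ K ∧ W X = W (K \ X)) ∨
      (∃ X, X ⊆ K ∧ W X = 5 ∧ W (K \ X) ≤ 4) := by
  unfold W wt; decide +kernel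

theorem star_false (h : D.SC x) : False := by
  obtain ⟨k0, hk0, hW⟩ := exists_big h
  have hU := claim1 h
  set K0 := D.K x k0 with hK0
  -- only the class `k0` matters
  have only : ∀ (Z : Finset (Fin 5)) (r : Fin 5 → Bool) (k : ℕ), k ≠ x →
      6 * D.t < D.load (D.stZ x Z r) k → k = k0 ∧ 5 ≤ W (K0 ∩ Z) := by
    intro Z r k hk hl
    have h1 := lt_of_lt_of_le hl (D.load_stZ_le x Z r k hk)
    have h2 := W_of_lt h _ h1
    have hkk : k = k0 := by
      by_contra hne
      have h3 := W_union_le _ _ (D.K_disj x k k0 hne)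
      rw [← hK0] at h3
      have h4 := W_mono (D.K x k ∩ Z) (D.K x k) Finset.inter_subset_left
      omega
    subst hkk
    exact ⟨rfl, h2⟩
  rcases split_big K0 hW with ⟨h10, X, hX, hXe⟩ | ⟨X, hX, hX5, hX4⟩
  · -- balanced
    let s := D.stZ x X fun _ => false
    have e1 : (univ.filter fun i => D.zz i (s i) = x ∧ D.zz i (!s i) = k0) = X := by
      ext i
      simp only [Finset.mem_filter, Finset.mem_univ, true_and]
      constructor
      · rintro ⟨h1, h2⟩
        have hex : D.Ex i x k0 := (D.ex_iff i (s i) x k0).mpr (Or.inl ⟨h1, h2⟩)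
        by_contra hi
        have := D.zz_stZ_not_mem x X (fun _ => false) i k0 hex hi
        exact hk0 (this.1.symm.trans h1)
      · intro hi
        exact D.zz_stZ_mem x X _ i k0 (mem_K.mp (hX hi)) hi
    have e2 : (univ.filter fun i => D.zz i (s i) = k0 ∧ D.zz i (!s i) = x) = K0 \ X := by
      ext i
      simp only [Finset.mem_filter, Finset.mem_univ, true_and, Finset.mem_sdiff]
      constructor
      · rintro ⟨h1, h2⟩
        have hex : D.Ex i x k0 := (D.ex_iff i (s i) x k0).mpr (Or.inr ⟨h1, h2⟩)
        refine ⟨mem_K.mpr hex, fun hi => ?_⟩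
        have := D.zz_stZ_mem x X (fun _ => false) i k0 hex hi
        exact hk0 (h1.symm.trans this.1)
      · rintro ⟨h1, h2⟩
        exact D.zz_stZ_not_mem x X _ i k0 (mem_K.mp h1) h2
    rcases h s with ⟨k, hk, hb⟩ | ⟨k, hk, hb⟩
    · have hb2 := hb.2
      rw [fl_stZ] at hb2
      obtain ⟨rfl, -⟩ := only _ _ k hk hb2
      have := (D.pair_lemma s x k hb).2
      rw [e1, e2] at this
      omega
    · obtain ⟨rfl, -⟩ := only _ _ k hk hb.1
      have := (D.pair_lemma s k x hb).2
      rw [e1, e2] at this
      omega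
  · -- unbalanced
    have e0 : K0 ∩ X = X := Finset.inter_eq_right.mpr hX
    have e1 : K0 ∩ Xᶜ = K0 \ X := by ext i; simp
    have e2 : K0 ∩ (X ∪ K0ᶜ) = X := by
      ext i
      simp only [Finset.mem_inter, Finset.mem_union, Finset.mem_compl]
      constructor
      · rintro ⟨h1, h2 | h2⟩
        · exact h2
        · exact absurd h1 h2
      · intro hi
        exact ⟨hX hi, Or.inl hi⟩
    have e3 : K0 ∩ (X ∪ K0ᶜ)ᶜ = K0 \ X := by
      ext i
      simp only [Finset.mem_inter, Finset.mem_union, Finset.mem_compl, Finset.mem_sdiff]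
      tauto
    have get : ∀ (Z : Finset (Fin 5)) (r : Fin 5 → Bool), K0 ∩ Zᶜ = K0 \ X →
        6 * D.t < D.load (D.stZ x Z r) k0 := by
      intro Z r hZ
      rcases h (D.stZ x Z r) with ⟨k, hk, hb⟩ | ⟨k, hk, hb⟩
      · have hb2 := hb.2
        rw [fl_stZ] at hb2
        obtain ⟨-, h5⟩ := only _ _ k hk hb2
        rw [hZ] at h5
        omega
      · obtain ⟨rfl, -⟩ := only _ _ k hk hb.1
        exact hb.1
    have l1 := get X (fun _ => false) e1
    have l2 := get (X ∪ K0ᶜ) (fl fun _ => false) e3
    have key : D.load (D.stZ x X fun _ => false) k0 +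
        D.load (D.stZ x (X ∪ K0ᶜ) (fl fun _ => false)) k0 ≤ 2 * (W X * D.t) + D.U x := by
      have e4 : 2 * (W X * D.t) = ∑ i, if i ∈ X then 2 * D.y i else 0 := by
        rw [← Finset.sum_filter]
        simp only [W, Finset.sum_mul, Finset.mul_sum, y]
        apply Finset.sum_congr _ (fun _ _ => rfl)
        ext i; simp
      rw [e4]
      unfold load U
      rw [← Finset.sum_add_distrib, ← Finset.sum_add_distrib]
      apply Finset.sum_le_sum
      intro i _
      have ha := D.a_le i
      by_cases hi : i ∈ X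
      · have hex : D.Ex i x k0 := mem_K.mp (hX hi)
        rw [if_pos hi]
        obtain ⟨h1, h2⟩ := D.zz_stZ_mem x X (fun _ => false) i k0 hex hi
        obtain ⟨-, h3, -, -⟩ := D.vals i _ x k0 h1 h2
        obtain ⟨h1', h2'⟩ := D.zz_stZ_mem x (X ∪ K0ᶜ) (fl fun _ => false) i k0 hex
          (Finset.mem_union_left _ hi)
        obtain ⟨-, h3', -, -⟩ := D.vals i _ x k0 h1' h2'
        omega
      · rw [if_neg hi]
        by_cases hiK : i ∈ K0
        · have hex : D.Ex i x k0 := mem_K.mp hiK
          obtain ⟨h1, h2⟩ := D.zz_stZ_not_mem x X (fun _ => false) i k0 hex hi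
          obtain ⟨h3, -, -, -⟩ := D.vals i _ k0 x h1 h2
          have hi' : i ∉ X ∪ K0ᶜ := by
            rw [Finset.mem_union, Finset.mem_compl]
            tauto
          obtain ⟨h1', h2'⟩ := D.zz_stZ_not_mem x (X ∪ K0ᶜ) (fl fun _ => false) i k0 hex hi'
          obtain ⟨h3', -, -, -⟩ := D.vals i _ k0 x h1' h2'
          omega
        · have hex : ¬ D.Ex i x k0 := fun h => hiK (mem_K.mpr h)
          have hi' : i ∈ X ∪ K0ᶜ := by
            rw [Finset.mem_union, Finset.mem_compl]
            exact Or.inr hiK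
          have hcomp : D.stZ x (X ∪ K0ᶜ) (fl fun _ => false) i =
              !(D.stZ x X (fun _ => false) i) := by
            simp only [stZ, fl, if_neg hi, if_pos hi']
            split_ifs <;> simp
          rw [hcomp]
          have := D.g_le_u x i (D.stZ x X (fun _ => false) i) k0 hk0 hex
          omega
    rw [hX5] at key
    omega

end Q127.EqStar.Data
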